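import Pool.Agent.Lib.MP_5fcc10_co_lin_h26.DP1b

/-! Weights of double paths: the expected number of new structures. -/

set_option linter.unusedSectionVars false

namespace Pool.Agent.SK.Lin.H26

open Finset
open scoped symmDiff

variable {n p : ℕ}

section bounds

variable {m d0 : ℕ}

open Classical in
/-- first kind: the second path meets the revealed set -/
noncomputable def T1 (q : ℝ) (U : Finset (Ix n)) (ψ0 : Ix n → Lb p) (v : Finset (Fin n))
    (x : Str n p m d0) : ℝ :=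
  if Function.Injective x.1.2 ∧ (∃ y ∈ x.SQ v ∩ U, (ψ0 y).1 = x.2.2) then q * G1 q U x.2.1.2.1
  else 0

open Classical in
/-- second kind: only the first path meets the revealed set -/
noncomputable def T2 (q : ℝ) (U : Finset (Ix n)) (v : Finset (Fin n))
    (x : Str n p m d0) : ℝ :=
  if 3 ≤ x.2.1.1.val ∧ Function.Injective x.1.2 ∧ (x.SP v ∩ U).Nonempty then
    ∏ r, (q * fw q U (x.2.1.2.1 r)) else 0

open Classical in
/-- third kind: the double path misses the revealed set -/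
noncomputable def T3 (q : ℝ) (U : Finset (Ix n)) (v : Finset (Fin n))
    (x : Str n p m d0) : ℝ :=
  if 3 ≤ x.2.1.1.val then
    (∏ r, om q U (pe v x.1.2 r)) * ∏ r, (q * fw q (x.SA v) (x.2.1.2.1 r)) else 0

lemma T1_nonneg {q : ℝ} (hq : 0 ≤ q) (U : Finset (Ix n)) (ψ0 : Ix n → Lb p) (v : Finset (Fin n))
    (x : Str n p m d0) : 0 ≤ T1 q U ψ0 v x := by
  unfold T1
  split_ifs
  · exact mul_nonneg hq (G1_nonneg hq U _)
  · exact le_rfl

lemma T2_nonneg {q : ℝ} (hq : 0 ≤ q) (U : Finset (Ix n)) (v : Finset (Fin n))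
    (x : Str n p m d0) : 0 ≤ T2 q U v x := by
  unfold T2
  split_ifs
  · exact prod_nonneg (fun r _ => mul_nonneg hq (fw_nonneg hq U _))
  · exact le_rfl

lemma T3_nonneg {q : ℝ} (hq : 0 ≤ q) (U : Finset (Ix n)) (v : Finset (Fin n))
    (x : Str n p m d0) : 0 ≤ T3 q U v x := by
  unfold T3
  split_ifs
  · exact mul_nonneg (prod_nonneg (fun r _ => om_nonneg hq U _))
      (prod_nonneg (fun r _ => mul_nonneg hq (fw_nonneg hq _ _)))
  · exact le_rfl

/-- product over both paths -/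
lemma pow_PQ (q : ℝ) (X : Finset (Ix n)) (w : Finset (Fin n)) {d : ℕ} (a : Fin d → Fin n)
    (ha : Function.Injective a) (π : Equiv.Perm (Fin d)) :
    q ^ (pes w a \ X).card * q ^ (pes w (a ∘ π) \ X).card
      = ∏ s, (om q X (pe w a (π s)) * om q X (pe w (a ∘ π) s)) := by
  rw [← prod_om_pe q X w a ha, ← prod_om_pe q X w (a ∘ π) (ha.comp π.injective), prod_mul_distrib,
    Equiv.prod_comp π (fun r => om q X (pe w a r))]

/-- no pair of edges in the same direction is contained in `X` -/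
lemma PQ_fw {q : ℝ} (hq0 : 0 ≤ q) (hq1 : q ≤ 1) (X : Finset (Ix n)) (w : Finset (Fin n)) {d : ℕ}
    (a : Fin d → Fin n) (ha : Function.Injective a) (π : Equiv.Perm (Fin d))
    (h : ∀ s, ¬ (pe w a (π s) ∈ X ∧ pe w (a ∘ π) s ∈ X)) :
    q ^ (pes w a \ X).card * q ^ (pes w (a ∘ π) \ X).card ≤ ∏ r, (q * fw q X (a r)) := by
  rw [pow_PQ q X w a ha π, ← Equiv.prod_comp π (fun r => q * fw q X (a r))]
  apply prod_le_prod
  · intro s _
    exact mul_nonneg (om_nonneg hq0 _ _) (om_nonneg hq0 _ _)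
  · intro s _
    exact om_mul_le_fw hq0 hq1 (pe_snd w a (π s)) (pe_snd w (a ∘ π) s) (h s)

/-- some pair of edges in the same direction is not contained in `X` -/
lemma PQ_G1 {q : ℝ} (hq0 : 0 ≤ q) (hq1 : q ≤ 1) (X : Finset (Ix n)) (w : Finset (Fin n)) {d : ℕ}
    (a : Fin d → Fin n) (ha : Function.Injective a) (π : Equiv.Perm (Fin d)) (s0 : Fin d)
    (hs0 : ¬ (pe w a (π s0) ∈ X ∧ pe w (a ∘ π) s0 ∈ X)) :
    q ^ (pes w a \ X).card * q ^ (pes w (a ∘ π) \ X).card ≤ q * G1 q X a := by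
  rw [pow_PQ q X w a ha π]
  have h1 : ∏ s, (om q X (pe w a (π s)) * om q X (pe w (a ∘ π) s))
      ≤ ∏ s, ((if s = s0 then q else 1) * (if s = s0 then fw q X (a (π s))
          else hw q X (a (π s)))) := by
    apply prod_le_prod
    · intro s _
      exact mul_nonneg (om_nonneg hq0 _ _) (om_nonneg hq0 _ _)
    · intro s _
      by_cases hs : s = s0
      · rw [if_pos hs, if_pos hs]
        subst hs
        exact om_mul_le_fw hq0 hq1 (pe_snd w a (π s)) (pe_snd w (a ∘ π) s) hs0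
      · rw [if_neg hs, if_neg hs, one_mul]
        exact om_mul_le_hw hq0 hq1 (pe_snd w a (π s)) (pe_snd w (a ∘ π) s)
  have h2 : ∏ s, ((if s = s0 then q else 1) * (if s = s0 then fw q X (a (π s))
          else hw q X (a (π s)))) = q * ∏ s, (if s = s0 then fw q X (a (π s))
          else hw q X (a (π s))) := by
    rw [prod_mul_distrib, prod_ite_eq', if_pos (mem_univ _)]
  have h3 : ∏ s, (if s = s0 then fw q X (a (π s)) else hw q X (a (π s)))
      = ∏ r, (if r = π s0 then fw q X (a r) else hw q X (a r)) := by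
    rw [← Equiv.prod_comp π (fun r => if r = π s0 then fw q X (a r) else hw q X (a r))]
    refine prod_congr rfl (fun s _ => ?_)
    simp only [EmbeddingLike.apply_eq_iff_eq]
  have h4 : ∏ r, (if r = π s0 then fw q X (a r) else hw q X (a r)) ≤ G1 q X a := by
    unfold G1
    refine single_le_sum (f := fun r0 => ∏ r, (if r = r0 then fw q X (a r) else hw q X (a r)))
      (fun r0 _ => ?_) (mem_univ _)
    refine prod_nonneg (fun r _ => ?_)
    split_ifs
    · exact fw_nonneg hq0 X _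
    · exact hw_nonneg X _
  rw [h2, h3] at h1
  exact h1.trans (mul_le_mul_of_nonneg_left h4 hq0)

/-- all pairs are contained in `X` -/
lemma one_le_G1 {q : ℝ} (hq0 : 0 ≤ q) (X : Finset (Ix n)) (w : Finset (Fin n)) {d : ℕ}
    (hd : 0 < d) (a : Fin d → Fin n) (h : ∀ r, pe w a r ∈ X) : 1 ≤ G1 q X a := by
  unfold G1
  have hterm : ∀ r0 : Fin d, 1 ≤ ∏ r, (if r = r0 then fw q X (a r) else hw q X (a r)) := by
    intro r0
    have h1 : ∏ r : Fin d, (1:ℝ) ≤ ∏ r, (if r = r0 then fw q X (a r) else hw q X (a r)) := by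
      apply prod_le_prod
      · intro r _; exact zero_le_one
      · intro r _
        have hmem : a r ∈ dirs X := mem_dirs.2 ⟨_, h r, pe_snd w a r⟩
        unfold fw hw
        rw [if_pos hmem]
        split_ifs
        · linarith
        · have := sq_nonneg q
          linarith
    rwa [prod_const_one] at h1
  refine (hterm ⟨0, hd⟩).trans ?_
  exact single_le_sum (f := fun r0 => ∏ r, (if r = r0 then fw q X (a r) else hw q X (a r)))
    (fun r0 _ => zero_le_one.trans (hterm r0)) (mem_univ _)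

/-- the weight, in terms of the components -/
lemma weight_le' {q : ℝ} (hq0 : 0 < q) (hq1 : q ≤ 1) (U SA : Finset (Ix n)) (w : Finset (Fin n))
    {d : ℕ} (hd : 3 ≤ d) (a : Fin d → Fin n) (ha : Function.Injective a) (π : Equiv.Perm (Fin d))
    (hπ : conn π) (hS : ¬ SA ∪ (pes w a ∪ pes w (a ∘ π)) ⊆ U)
    (hSA : ∀ y ∈ SA, ∀ z ∈ SA, y.2 = z.2 → y = z) :
    ((pes w (a ∘ π) ∩ U).Nonempty ∧
      q ^ ((SA ∪ (pes w a ∪ pes w (a ∘ π))) \ U).card ≤ q * G1 q U a) ∨
    ((pes w a ∩ U).Nonempty ∧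
      q ^ ((SA ∪ (pes w a ∪ pes w (a ∘ π))) \ U).card ≤ ∏ r, (q * fw q U (a r))) ∨
    (q ^ ((SA ∪ (pes w a ∪ pes w (a ∘ π))) \ U).card
      ≤ q ^ (SA \ U).card * ∏ r, (q * fw q SA (a r))) := by
  have hdisj : Disjoint (pes w a) (pes w (a ∘ π)) := pes_disjoint (by omega) _ _ ha _ hπ
  have hPQ : q ^ ((SA ∪ (pes w a ∪ pes w (a ∘ π))) \ U).card
      ≤ q ^ (pes w a \ U).card * q ^ (pes w (a ∘ π) \ U).card := by
    rw [← pow_add]
    apply pow_le_pow_of_le_one hq0.le hq1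
    have h1 : (pes w a \ U) ∪ (pes w (a ∘ π) \ U) ⊆ (SA ∪ (pes w a ∪ pes w (a ∘ π))) \ U := by
      intro y hy
      rw [mem_union, mem_sdiff, mem_sdiff] at hy
      rw [mem_sdiff, mem_union, mem_union]
      tauto
    have h2 := card_le_card h1
    rw [card_union_of_disjoint (hdisj.mono sdiff_subset sdiff_subset)] at h2
    exact h2
  by_cases hQ : (pes w (a ∘ π) ∩ U).Nonempty
  · left
    refine ⟨hQ, ?_⟩
    by_cases hall : ∀ s, pe w a (π s) ∈ U ∧ pe w (a ∘ π) s ∈ U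
    · have h1 : q ^ ((SA ∪ (pes w a ∪ pes w (a ∘ π))) \ U).card ≤ q := by
        have hne : ((SA ∪ (pes w a ∪ pes w (a ∘ π))) \ U).card ≠ 0 := by
          intro h0
          exact hS (sdiff_eq_empty_iff_subset.1 (card_eq_zero.1 h0))
        exact pow_le_of_le_one hq0.le hq1 hne
      have h2 : 1 ≤ G1 q U a := by
        apply one_le_G1 hq0.le U w (by omega) a
        intro r
        have := (hall (π.symm r)).1
        rwa [Equiv.apply_symm_apply] at this
      nlinarith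
    · rw [not_forall] at hall
      obtain ⟨s0, hs0⟩ := hall
      exact hPQ.trans (PQ_G1 hq0.le hq1 U w a ha π s0 hs0)
  · right
    by_cases hP : (pes w a ∩ U).Nonempty
    · left
      refine ⟨hP, hPQ.trans (PQ_fw hq0.le hq1 U w a ha π ?_)⟩
      rintro s ⟨_, h2⟩
      exact hQ ⟨_, mem_inter.2 ⟨mem_pes.2 ⟨s, rfl⟩, h2⟩⟩
    · right
      have h1 : q ^ ((SA ∪ (pes w a ∪ pes w (a ∘ π))) \ U).card ≤ q ^ (SA \ U).card
          * (q ^ (pes w a \ SA).card * q ^ (pes w (a ∘ π) \ SA).card) := by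
        rw [← pow_add, ← pow_add]
        apply pow_le_pow_of_le_one hq0.le hq1
        have h1 : (SA \ U) ∪ ((pes w a \ SA) ∪ (pes w (a ∘ π) \ SA))
            ⊆ (SA ∪ (pes w a ∪ pes w (a ∘ π))) \ U := by
          intro y hy
          rw [mem_union, mem_union, mem_sdiff, mem_sdiff, mem_sdiff] at hy
          rw [mem_sdiff, mem_union, mem_union]
          rcases hy with hy | hy | hy
          · exact ⟨Or.inl hy.1, hy.2⟩
          · exact ⟨Or.inr (Or.inl hy.1), fun h => hP ⟨y, mem_inter.2 ⟨hy.1, h⟩⟩⟩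
          · exact ⟨Or.inr (Or.inr hy.1), fun h => hQ ⟨y, mem_inter.2 ⟨hy.1, h⟩⟩⟩
        have h2 := card_le_card h1
        rw [card_union_of_disjoint, card_union_of_disjoint
          (hdisj.mono sdiff_subset sdiff_subset)] at h2
        · exact h2
        · rw [disjoint_left]
          intro y hy hy'
          rw [mem_sdiff] at hy
          rw [mem_union, mem_sdiff, mem_sdiff] at hy'
          rcases hy' with h | h
          · exact h.2 hy.1
          · exact h.2 hy.1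
      refine h1.trans (mul_le_mul_of_nonneg_left (PQ_fw hq0.le hq1 SA w a ha π ?_)
        (pow_nonneg hq0.le _))
      rintro s ⟨h2, h3⟩
      exact pe_ne (by omega) w a ha π hπ s (hSA _ h2 _ h3 (by rw [pe_snd, pe_snd]; rfl))

/-- the weight of a structure -/
lemma weight_le {q : ℝ} (hq0 : 0 < q) (hq1 : q ≤ 1) (v : Finset (Fin n)) (i : ZMod p)
    (U : Finset (Ix n)) (ψ0 : Ix n → Lb p) (x : Str n p m d0) (hx : x.ok) (hS : ¬ x.S v ⊆ U)
    (hU : x.okU ψ0 U v i) :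
    q ^ (x.S v \ U).card ≤ T1 q U ψ0 v x + T2 q U v x + T3 q U v x := by
  obtain ⟨hb, hd, ha, hπ⟩ := hx
  have hT1 := T1_nonneg hq0.le U ψ0 v x
  have hT2 := T2_nonneg hq0.le U v x
  have hT3 := T3_nonneg hq0.le U v x
  rcases weight_le' hq0 hq1 U (x.SA v) (x.w v) hd x.2.1.2.1 ha x.2.1.2.2 hπ hS
    (fun y hy z hz h => pes_unique hb hy hz h) with ⟨⟨y, hy⟩, h⟩ | ⟨h1, h⟩ | h
  · have hT : T1 q U ψ0 v x = q * G1 q U x.2.1.2.1 := by
      have hy' := mem_inter.1 hy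
      exact if_pos ⟨hb, y, hy, hU.2.2 y hy'.1 hy'.2⟩
    have h2 : q ^ (x.S v \ U).card ≤ T1 q U ψ0 v x := by rw [hT]; exact h
    linarith
  · have hT : T2 q U v x = ∏ r, (q * fw q U (x.2.1.2.1 r)) := if_pos ⟨hd, hb, h1⟩
    have h2 : q ^ (x.S v \ U).card ≤ T2 q U v x := by rw [hT]; exact h
    linarith
  · have hT : T3 q U v x = (∏ r, om q U (pe v x.1.2 r))
          * ∏ r, (q * fw q (x.SA v) (x.2.1.2.1 r)) := if_pos hd
    have h2 : q ^ (x.S v \ U).card ≤ T3 q U v x := by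
      rw [hT, prod_om_pe q U v x.1.2 hb]; exact h
    linarith

open Classical in
lemma T1_mk (q : ℝ) (U : Finset (Ix n)) (ψ0 : Ix n → Lb p) (v : Finset (Fin n))
    (y : Σ l : Fin (m + 1), (Fin l.val → Fin n))
    (D : Σ d : Fin (d0 + 1), (Fin d.val → Fin n) × Equiv.Perm (Fin d.val)) (j : ZMod p) :
    T1 q U ψ0 v (m := m) (d0 := d0) (y, (D, j)) = if Function.Injective y.2 ∧
      (∃ z ∈ pes (pv v y.2 y.1.val) (D.2.1 ∘ D.2.2) ∩ U, (ψ0 z).1 = j) then q * G1 q U D.2.1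
      else 0 := rfl

open Classical in
lemma T2_mk (q : ℝ) (U : Finset (Ix n)) (v : Finset (Fin n))
    (y : Σ l : Fin (m + 1), (Fin l.val → Fin n))
    (D : Σ d : Fin (d0 + 1), (Fin d.val → Fin n) × Equiv.Perm (Fin d.val)) (j : ZMod p) :
    T2 q U v (m := m) (d0 := d0) (y, (D, j)) = if 3 ≤ D.1.val ∧ Function.Injective y.2 ∧
      (pes (pv v y.2 y.1.val) D.2.1 ∩ U).Nonempty then ∏ r, (q * fw q U (D.2.1 r))
      else 0 := rfl

open Classical in
lemma T3_mk (q : ℝ) (U : Finset (Ix n)) (v : Finset (Fin n))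
    (y : Σ l : Fin (m + 1), (Fin l.val → Fin n))
    (D : Σ d : Fin (d0 + 1), (Fin d.val → Fin n) × Equiv.Perm (Fin d.val)) (j : ZMod p) :
    T3 q U v (m := m) (d0 := d0) (y, (D, j)) = if 3 ≤ D.1.val then
      (∏ r, om q U (pe v y.2 r)) * ∏ r, (q * fw q (pes v y.2) (D.2.1 r)) else 0 := rfl

end bounds

section sums

variable (m d0 : ℕ)

/-- codes of double paths -/
abbrev Dc (n d0 : ℕ) := Σ d : Fin (d0 + 1), (Fin d.val → Fin n) × Equiv.Perm (Fin d.val)

/-- a sum over the codes of double paths -/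
lemma sum_Dc_le (G : (d : ℕ) → (Fin d → Fin n) → ℝ) (K : ℝ) (hK : 0 ≤ K)
    (hG : ∀ d, d ≤ d0 → ∑ a : Fin d → Fin n, G d a ≤ K) :
    ∑ B : Dc n d0, G B.1.val B.2.1 ≤ ((d0 + 1 : ℕ) : ℝ) * ((d0.factorial : ℕ) : ℝ) * K := by
  rw [Fintype.sum_sigma]
  have h : ∀ d : Fin (d0+1), ∑ B : (Fin d.val → Fin n) × Equiv.Perm (Fin d.val), G d.val B.1
      ≤ ((d0.factorial : ℕ) : ℝ) * K := by
    intro d
    rw [Fintype.sum_prod_type]
    calc ∑ a : Fin d.val → Fin n, ∑ _π : Equiv.Perm (Fin d.val), G d.val a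
        = ((d.val.factorial : ℕ) : ℝ) * ∑ a : Fin d.val → Fin n, G d.val a := by
          rw [mul_sum]
          refine sum_congr rfl (fun a _ => ?_)
          rw [sum_const, card_univ, Fintype.card_perm, Fintype.card_fin, nsmul_eq_mul]
      _ ≤ ((d.val.factorial : ℕ) : ℝ) * K :=
          mul_le_mul_of_nonneg_left (hG _ (by omega)) (by positivity)
      _ ≤ ((d0.factorial : ℕ) : ℝ) * K := by
          apply mul_le_mul_of_nonneg_right _ hK
          exact_mod_cast Nat.factorial_le (by omega)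
  refine (sum_le_sum (fun d _ => h d)).trans (le_of_eq ?_)
  rw [sum_const, card_univ, Fintype.card_fin, nsmul_eq_mul]
  ring

lemma sum_T1 [NeZero p] (q : ℝ) (hq : 0 ≤ q) (U : Finset (Ix n)) (ψ0 : Ix n → Lb p)
    (v : Finset (Fin n)) (A B : ℝ) (hA : (U.card : ℝ) + n * q ≤ A)
    (hB : (U.card : ℝ) + n * q ^ 2 ≤ B) (hB1 : 1 ≤ B) :
    ∑ x : Str n p m d0, T1 q U ψ0 v x ≤ ((d0 + 1 : ℕ) : ℝ) * ((d0.factorial : ℕ) : ℝ) *
      (q * (d0 * (A * B ^ d0)) * (d0 * U.card * (2 * ((m + 1 : ℕ) : ℝ) ^ (m + 1)))) := by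
  classical
  have hA0 : 0 ≤ A := le_trans (by positivity) hA
  rw [Fintype.sum_prod_type, sum_comm, Fintype.sum_prod_type]
  have h1 : ∀ (D : Dc n d0), ∑ j : ZMod p, ∑ y : Pa n m, T1 q U ψ0 v (y, (D, j))
      ≤ q * G1 q U D.2.1 * (d0 * U.card * (2 * ((m + 1 : ℕ) : ℝ) ^ (m + 1))) := by
    intro D
    rw [sum_comm]
    have h2 : ∀ y : Pa n m, ∑ j : ZMod p, T1 q U ψ0 v (y, (D, j))
        ≤ q * G1 q U D.2.1 * (if Function.Injective y.2 then
          ((pes (pv v y.2 y.1.val) (D.2.1 ∘ D.2.2) ∩ U).card : ℝ) else 0) := by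
      intro y
      by_cases hy : Function.Injective y.2
      · rw [if_pos hy]
        have h3 : ∀ j : ZMod p, T1 q U ψ0 v ((y, (D, j)) : Str n p m d0)
            = q * G1 q U D.2.1 * (if ∃ z ∈ pes (pv v y.2 y.1.val) (D.2.1 ∘ D.2.2) ∩ U,
              (ψ0 z).1 = j then 1 else 0) := by
          intro j
          rw [T1_mk]
          by_cases hz : ∃ z ∈ pes (pv v y.2 y.1.val) (D.2.1 ∘ D.2.2) ∩ U, (ψ0 z).1 = j
          · rw [if_pos hz, mul_one, if_pos ⟨hy, hz⟩]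
          · rw [if_neg hz, mul_zero, if_neg (fun h => hz h.2)]
        rw [sum_congr rfl (fun j _ => h3 j), ← mul_sum, sum_boole]
        apply mul_le_mul_of_nonneg_left _ (mul_nonneg hq (G1_nonneg hq U _))
        have h4 : univ.filter (fun j : ZMod p => ∃ z ∈ pes (pv v y.2 y.1.val) (D.2.1 ∘ D.2.2) ∩ U,
            (ψ0 z).1 = j) ⊆ (pes (pv v y.2 y.1.val) (D.2.1 ∘ D.2.2) ∩ U).image
              (fun z => (ψ0 z).1) := by
          intro j hj
          rw [mem_image]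
          exact (mem_filter.1 hj).2
        exact_mod_cast (card_le_card h4).trans card_image_le
      · rw [if_neg hy, mul_zero]
        apply le_of_eq
        apply sum_eq_zero
        intro j _
        rw [T1_mk, if_neg (fun h => hy h.1)]
    refine (sum_le_sum (fun y _ => h2 y)).trans ?_
    rw [← mul_sum]
    apply mul_le_mul_of_nonneg_left _ (mul_nonneg hq (G1_nonneg hq U _))
    refine (sum_meet m v (D.2.1 ∘ D.2.2) U).trans ?_
    have h5 : ((D.1.val : ℕ) : ℝ) ≤ d0 := by exact_mod_cast (by omega : D.1.val ≤ d0)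
    gcongr
  refine (sum_le_sum (fun D _ => h1 D)).trans ?_
  have h6 : (0:ℝ) ≤ d0 * U.card * (2 * ((m + 1 : ℕ) : ℝ) ^ (m + 1)) := by positivity
  apply sum_Dc_le d0 (fun d a => q * G1 q U a * (d0 * U.card * (2 * ((m + 1 : ℕ) : ℝ) ^ (m + 1))))
  · positivity
  · intro d hd
    rw [← sum_mul, ← mul_sum]
    apply mul_le_mul_of_nonneg_right _ h6
    apply mul_le_mul_of_nonneg_left _ hq
    refine (sum_G1 hq U d A B hA hB hB1).trans ?_
    have h7 : (d : ℝ) ≤ d0 := by exact_mod_cast hd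
    have h8 : B ^ d ≤ B ^ d0 := pow_le_pow_right₀ hB1 hd
    have h9 : 0 ≤ B ^ d := by positivity
    gcongr

lemma sum_T2 [NeZero p] (q : ℝ) (hq : 0 ≤ q) (U : Finset (Ix n))
    (v : Finset (Fin n)) (A : ℝ) (hA : (U.card : ℝ) + n * q ≤ A) (hA1 : q * A ≤ 1) :
    ∑ x : Str n p m d0, T2 q U v x ≤ ((d0 + 1 : ℕ) : ℝ) * ((d0.factorial : ℕ) : ℝ) *
      ((q * A) ^ 3 * (p * (d0 * U.card * (2 * ((m + 1 : ℕ) : ℝ) ^ (m + 1))))) := by
  classical
  have hA0 : 0 ≤ A := le_trans (by positivity) hA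
  rw [Fintype.sum_prod_type, sum_comm, Fintype.sum_prod_type]
  have h0 : ∀ (d : ℕ) (a : Fin d → Fin n), 0 ≤ (if 3 ≤ d then ∏ r, (q * fw q U (a r)) else 0) := by
    intro d a
    split_ifs
    · exact prod_nonneg (fun r _ => mul_nonneg hq (fw_nonneg hq U _))
    · exact le_rfl
  have h1 : ∀ (D : Dc n d0), ∑ j : ZMod p, ∑ y : Pa n m, T2 q U v ((y, (D, j)) : Str n p m d0)
      ≤ (if 3 ≤ D.1.val then ∏ r, (q * fw q U (D.2.1 r)) else 0) *
        (p * (d0 * U.card * (2 * ((m + 1 : ℕ) : ℝ) ^ (m + 1)))) := by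
    intro D
    have h2 : ∀ j : ZMod p, ∑ y : Pa n m, T2 q U v ((y, (D, j)) : Str n p m d0)
        ≤ (if 3 ≤ D.1.val then ∏ r, (q * fw q U (D.2.1 r)) else 0) *
          (d0 * U.card * (2 * ((m + 1 : ℕ) : ℝ) ^ (m + 1))) := by
      intro j
      have h3 : ∀ y : Pa n m, T2 q U v ((y, (D, j)) : Str n p m d0)
          ≤ (if 3 ≤ D.1.val then ∏ r, (q * fw q U (D.2.1 r)) else 0) *
            (if Function.Injective y.2 then ((pes (pv v y.2 y.1.val) D.2.1 ∩ U).card : ℝ)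
              else 0) := by
        intro y
        rw [T2_mk]
        by_cases h : 3 ≤ D.1.val ∧ Function.Injective y.2 ∧
            (pes (pv v y.2 y.1.val) D.2.1 ∩ U).Nonempty
        · rw [if_pos h, if_pos h.1, if_pos h.2.1]
          have h4 : (1:ℝ) ≤ ((pes (pv v y.2 y.1.val) D.2.1 ∩ U).card : ℝ) := by
            exact_mod_cast card_pos.2 h.2.2
          have h5 := h0 D.1.val D.2.1
          rw [if_pos h.1] at h5
          nlinarith
        · rw [if_neg h]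
          apply mul_nonneg (h0 _ _)
          split_ifs <;> positivity
      refine (sum_le_sum (fun y _ => h3 y)).trans ?_
      rw [← mul_sum]
      apply mul_le_mul_of_nonneg_left _ (h0 _ _)
      refine (sum_meet m v D.2.1 U).trans ?_
      have h5 : ((D.1.val : ℕ) : ℝ) ≤ d0 := by exact_mod_cast (by omega : D.1.val ≤ d0)
      gcongr
    refine (sum_le_sum (fun j _ => h2 j)).trans (le_of_eq ?_)
    rw [sum_const, card_univ, ZMod.card, nsmul_eq_mul]
    ring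
  refine (sum_le_sum (fun D _ => h1 D)).trans ?_
  have h6 : (0:ℝ) ≤ p * (d0 * U.card * (2 * ((m + 1 : ℕ) : ℝ) ^ (m + 1))) := by positivity
  apply sum_Dc_le d0 (fun d a => (if 3 ≤ d then ∏ r, (q * fw q U (a r)) else 0) *
        (p * (d0 * U.card * (2 * ((m + 1 : ℕ) : ℝ) ^ (m + 1)))))
  · positivity
  · intro d hd
    rw [← sum_mul]
    apply mul_le_mul_of_nonneg_right _ h6
    by_cases h3 : 3 ≤ d
    · simp only [if_pos h3]
      exact sum_prod_fw hq U d A hA h3 hA1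
    · simp only [if_neg h3, sum_const_zero]
      positivity

lemma sum_T3 [NeZero p] (q : ℝ) (hq : 0 ≤ q) (U : Finset (Ix n))
    (v : Finset (Fin n)) (A : ℝ) (hA : (U.card : ℝ) + n * q ≤ A) (hA' : (m : ℝ) + n * q ≤ A)
    (hA1 : q * A ≤ 1) (hA2 : 1 ≤ A) :
    ∑ x : Str n p m d0, T3 q U v x ≤ ((m + 1 : ℕ) : ℝ) * A ^ m *
      (p * (((d0 + 1 : ℕ) : ℝ) * ((d0.factorial : ℕ) : ℝ) * (q * A) ^ 3)) := by
  classical
  rw [Fintype.sum_prod_type]
  have h1 : ∀ y : Pa n m, ∑ z : Dc n d0 × ZMod p, T3 q U v ((y, z) : Str n p m d0)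
      ≤ (∏ r, om q U (pe v y.2 r)) *
        (p * (((d0 + 1 : ℕ) : ℝ) * ((d0.factorial : ℕ) : ℝ) * (q * A) ^ 3)) := by
    intro y
    have hom : 0 ≤ ∏ r, om q U (pe v y.2 r) := prod_nonneg (fun r _ => om_nonneg hq U _)
    have h2 : ∀ z : Dc n d0 × ZMod p, T3 q U v ((y, z) : Str n p m d0)
        = (∏ r, om q U (pe v y.2 r)) *
          (if 3 ≤ z.1.1.val then ∏ r, (q * fw q (pes v y.2) (z.1.2.1 r)) else 0) := by
      rintro ⟨D, j⟩
      rw [T3_mk]
      by_cases h : 3 ≤ D.1.val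
      · rw [if_pos h, if_pos h]
      · rw [if_neg h, if_neg h, mul_zero]
    rw [sum_congr rfl (fun z _ => h2 z), ← mul_sum]
    apply mul_le_mul_of_nonneg_left _ hom
    rw [Fintype.sum_prod_type, sum_comm]
    have h3 : ∀ _j : ZMod p, ∑ D : Dc n d0, (if 3 ≤ D.1.val then
        ∏ r, (q * fw q (pes v y.2) (D.2.1 r)) else 0)
        ≤ ((d0 + 1 : ℕ) : ℝ) * ((d0.factorial : ℕ) : ℝ) * (q * A) ^ 3 := by
      intro _
      apply sum_Dc_le d0 (fun d a => (if 3 ≤ d then ∏ r, (q * fw q (pes v y.2) (a r)) else 0))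
      · have : 0 ≤ A := zero_le_one.trans hA2
        positivity
      · intro d hd
        by_cases h3 : 3 ≤ d
        · simp only [if_pos h3]
          apply sum_prod_fw hq _ d A _ h3 hA1
          refine le_trans ?_ hA'
          have h4 : ((pes v y.2).card : ℝ) ≤ m := by
            have h5 : (pes v y.2).card ≤ y.1.val := by
              refine card_image_le.trans ?_
              rw [card_univ, Fintype.card_fin]
            exact_mod_cast h5.trans (by omega)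
          linarith
        · simp only [if_neg h3, sum_const_zero]
          have : 0 ≤ A := zero_le_one.trans hA2
          positivity
    refine (sum_le_sum (fun j _ => h3 j)).trans (le_of_eq ?_)
    rw [sum_const, card_univ, ZMod.card, nsmul_eq_mul]
  refine (sum_le_sum (fun y _ => h1 y)).trans ?_
  rw [← sum_mul]
  have hA0 : 0 ≤ A := zero_le_one.trans hA2
  apply mul_le_mul_of_nonneg_right _ (by positivity)
  rw [Fintype.sum_sigma]
  have h4 : ∀ l : Fin (m+1), ∑ b : Fin l.val → Fin n, ∏ r, om q U (pe v b r) ≤ A ^ m := by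
    intro l
    refine (path_sum q hq U v l.val).trans ?_
    calc ((U.card : ℝ) + n * q) ^ l.val ≤ A ^ l.val :=
          pow_le_pow_left₀ (by positivity) hA _
      _ ≤ A ^ m := pow_le_pow_right₀ hA2 (by omega)
  refine (sum_le_sum (fun l _ => h4 l)).trans (le_of_eq ?_)
  rw [sum_const, card_univ, Fintype.card_fin, nsmul_eq_mul]

end sums

/-- the arithmetic of the last step -/
lemma final_arith (K M g q P Uc u0 D0 Mm : ℝ) (m d0 : ℕ) (hK : 0 ≤ K) (hM : 0 ≤ M) (hg : 1 ≤ g)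
    (hq : 0 < q) (hP : P = 1 / q) (hU0 : 0 ≤ Uc) (hU : Uc ≤ u0) (hD : 0 ≤ D0) (hMm : 0 ≤ Mm) :
    K * (q * (D0 * (2 * g * (u0 + 1) ^ d0)) * (D0 * Uc * M))
      + K * ((q * (2 * g)) ^ 3 * (P * (D0 * Uc * M)))
      + Mm * (2 * g) ^ m * (P * (K * (q * (2 * g)) ^ 3))
      ≤ (K * (2 * D0 * (u0 + 1) ^ d0 * (D0 * u0 * M)) + K * (8 * (D0 * u0 * M))
        + Mm * 2 ^ m * (8 * K)) * (g * q + g ^ (m + 3) * q ^ 2) := by
  have hg0 : 0 < g := by linarith
  have hu0 : 0 ≤ u0 := hU0.trans hU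
  have hPq : P * q = 1 := by rw [hP]; field_simp
  have hP3 : P * (q * (2 * g)) ^ 3 = 8 * g ^ 3 * q ^ 2 := by
    have : P * (q * (2 * g)) ^ 3 = (P * q) * (8 * g ^ 3 * q ^ 2) := by ring
    rw [this, hPq, one_mul]
  have hg3 : g ^ 3 ≤ g ^ (m + 3) := pow_le_pow_right₀ hg (by omega)
  set X := g * q with hX
  set Y := g ^ (m + 3) * q ^ 2 with hY
  have hX0 : 0 ≤ X := by positivity
  have hY0 : 0 ≤ Y := by positivity
  set C1 := K * (2 * D0 * (u0 + 1) ^ d0 * (D0 * u0 * M)) with hC1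
  set C2 := K * (8 * (D0 * u0 * M)) with hC2
  set C3 := Mm * 2 ^ m * (8 * K) with hC3
  have hC10 : 0 ≤ C1 := by positivity
  have hC20 : 0 ≤ C2 := by positivity
  have hC30 : 0 ≤ C3 := by positivity
  have t1 : K * (q * (D0 * (2 * g * (u0 + 1) ^ d0)) * (D0 * Uc * M)) ≤ C1 * X := by
    calc K * (q * (D0 * (2 * g * (u0 + 1) ^ d0)) * (D0 * Uc * M))
        ≤ K * (q * (D0 * (2 * g * (u0 + 1) ^ d0)) * (D0 * u0 * M)) := by gcongr
      _ = C1 * X := by rw [hC1, hX]; ring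
  have t2 : K * ((q * (2 * g)) ^ 3 * (P * (D0 * Uc * M))) ≤ C2 * Y := by
    calc K * ((q * (2 * g)) ^ 3 * (P * (D0 * Uc * M)))
        = K * ((P * (q * (2 * g)) ^ 3) * (D0 * Uc * M)) := by ring
      _ = K * ((8 * g ^ 3 * q ^ 2) * (D0 * Uc * M)) := by rw [hP3]
      _ ≤ K * ((8 * g ^ (m+3) * q ^ 2) * (D0 * u0 * M)) := by gcongr
      _ = C2 * Y := by rw [hC2, hY]; ring
  have t3 : Mm * (2 * g) ^ m * (P * (K * (q * (2 * g)) ^ 3)) = C3 * Y := by
    calc Mm * (2 * g) ^ m * (P * (K * (q * (2 * g)) ^ 3))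
        = Mm * (2 * g) ^ m * (K * (P * (q * (2 * g)) ^ 3)) := by ring
      _ = Mm * (2 * g) ^ m * (K * (8 * g ^ 3 * q ^ 2)) := by rw [hP3]
      _ = C3 * Y := by rw [hC3, hY, mul_pow, pow_add]; ring
  have e1 := mul_nonneg hC10 hY0
  have e2 := mul_nonneg hC20 hX0
  have e3 := mul_nonneg hC30 hX0
  have e4 : (C1 + C2 + C3) * (X + Y) = C1 * X + C1 * Y + (C2 * X + C2 * Y) + (C3 * X + C3 * Y) := by
    ring
  rw [e4]
  linarith

/-- The expected number of structures that are not contained in the revealed set `U` is small. -/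
theorem step_weight (m d0 u0 : ℕ) : ∃ C : ℝ, 0 ≤ C ∧ ∀ (n p : ℕ) (_ : NeZero p)
    (v : Finset (Fin n)) (i : ZMod p) (U : Finset (Ix n)) (ψ0 : Ix n → Lb p) (g : ℝ),
    U.card ≤ u0 → g = (n : ℝ) / p → (u0 : ℝ) + m ≤ g → 1 ≤ g → 2 * g ≤ p →
    ∀ F : Finset (Str n p m d0), (∀ x ∈ F, x.ok ∧ ¬ x.S v ⊆ U ∧ x.okU ψ0 U v i) →
      ∑ x ∈ F, (1 / (p : ℝ)) ^ (x.S v \ U).card ≤ C * (g / p + g ^ (m + 3) / (p : ℝ) ^ 2) := by
  refine ⟨((d0 + 1 : ℕ) : ℝ) * ((d0.factorial : ℕ) : ℝ) * (2 * d0 * ((u0 : ℝ) + 1) ^ d0 *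
    (d0 * u0 * (2 * ((m + 1 : ℕ) : ℝ) ^ (m + 1)))) + ((d0 + 1 : ℕ) : ℝ) *
    ((d0.factorial : ℕ) : ℝ) * (8 * (d0 * u0 * (2 * ((m + 1 : ℕ) : ℝ) ^ (m + 1)))) +
    ((m + 1 : ℕ) : ℝ) * 2 ^ m * (8 * (((d0 + 1 : ℕ) : ℝ) * ((d0.factorial : ℕ) : ℝ))),
    by positivity, ?_⟩
  intro n p hp v i U ψ0 g hU hg hg1 hg2 hg3 F hF
  have hp0 : (0:ℝ) < p := by
    have := Nat.pos_of_ne_zero hp.out
    exact_mod_cast this
  have hp1 : (1:ℝ) ≤ p := by
    have := Nat.pos_of_ne_zero hp.out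
    exact_mod_cast this
  obtain ⟨q, hq⟩ : ∃ q : ℝ, q = 1 / (p : ℝ) := ⟨_, rfl⟩
  rw [← hq]
  have hq0 : 0 < q := by rw [hq]; positivity
  have hq1 : q ≤ 1 := by
    rw [hq, div_le_one hp0]; exact hp1
  have hnq : (n : ℝ) * q = g := by rw [hg, hq]; ring
  have hUR : (U.card : ℝ) ≤ u0 := by exact_mod_cast hU
  have hqg : q * g ≤ 1 / 2 := by
    rw [hq, one_div_mul_eq_div, div_le_iff₀ hp0]
    linarith
  have hA : (U.card : ℝ) + n * q ≤ 2 * g := by
    rw [hnq]
    have : (0:ℝ) ≤ m := Nat.cast_nonneg m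
    linarith
  have hA' : (m : ℝ) + n * q ≤ 2 * g := by
    rw [hnq]
    have : (0:ℝ) ≤ u0 := Nat.cast_nonneg u0
    linarith
  have hA1 : q * (2 * g) ≤ 1 := by linarith
  have hB : (U.card : ℝ) + n * q ^ 2 ≤ u0 + 1 := by
    have : (n : ℝ) * q ^ 2 = q * g := by rw [← hnq]; ring
    rw [this]; linarith
  have hB1 : (1:ℝ) ≤ u0 + 1 := by
    have : (0:ℝ) ≤ u0 := Nat.cast_nonneg u0
    linarith
  have h1 : ∑ x ∈ F, q ^ (x.S v \ U).card
      ≤ ∑ x : Str n p m d0, (T1 q U ψ0 v x + T2 q U v x + T3 q U v x) := by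
    calc ∑ x ∈ F, q ^ (x.S v \ U).card
        ≤ ∑ x ∈ F, (T1 q U ψ0 v x + T2 q U v x + T3 q U v x) :=
          sum_le_sum (fun x hx => weight_le hq0 hq1 v i U ψ0 x (hF x hx).1 (hF x hx).2.1
            (hF x hx).2.2)
      _ ≤ _ := by
          apply sum_le_sum_of_subset_of_nonneg (subset_univ _)
          intro x _ _
          have a1 := T1_nonneg hq0.le U ψ0 v x
          have a2 := T2_nonneg hq0.le U v x
          have a3 := T3_nonneg hq0.le U v x
          linarith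
  rw [sum_add_distrib, sum_add_distrib] at h1
  have s1 := sum_T1 m d0 q hq0.le U ψ0 v (2 * g) (u0 + 1) hA hB hB1
  have s2 := sum_T2 (p := p) m d0 q hq0.le U v (2 * g) hA hA1
  have s3 := sum_T3 (p := p) m d0 q hq0.le U v (2 * g) hA hA' hA1 (by linarith)
  have hfin := final_arith (((d0 + 1 : ℕ) : ℝ) * ((d0.factorial : ℕ) : ℝ))
    (2 * ((m + 1 : ℕ) : ℝ) ^ (m + 1)) g q p U.card u0 d0 ((m + 1 : ℕ) : ℝ) m d0 (by positivity)
    (by positivity) hg2 hq0 (by rw [hq]; field_simp) (by positivity) hUR (by positivity)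
    (by positivity)
  have e1 : g / p = g * q := by rw [hq]; ring
  have e2 : g ^ (m + 3) / (p : ℝ) ^ 2 = g ^ (m + 3) * q ^ 2 := by rw [hq]; field_simp
  rw [e1, e2]
  refine h1.trans (le_trans ?_ hfin)
  exact add_le_add (add_le_add s1 s2) s3

end Pool.Agent.SK.Lin.H26
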