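import Pool.Agent.Lib.MP_5fcc10_co_lin.DelDef
import Pool.Agent.Lib.MP_5fcc10_co_lin.Deg
import Pool.Agent.Lib.MP_5fcc10_co_lin.Rep

/-! Module CLS: exact weights of a class at a stage. -/

set_option linter.unusedSectionVars false

namespace Pool.Agent.SK.Lin

open Finset
open scoped symmDiff

namespace H26

lemma swap {n t : ℕ} (G : Finset (Fin n) → Fin n → ℝ)
    (hG : ∀ v e, e ∈ nb t v → G (tg v e) e = G v e) :
    ∑ v ∈ univ.filter (fun v : Finset (Fin n) => v.card = t), ∑ e ∈ nb t v, G v e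
      = ∑ v ∈ univ.filter (fun v : Finset (Fin n) => v.card = t + 1), ∑ e ∈ nb t v, G v e := by
  rw [sum_sigma', sum_sigma']
  refine sum_bij' (fun x _ => ⟨tg x.1 x.2, x.2⟩) (fun x _ => ⟨tg x.1 x.2, x.2⟩) ?_ ?_ ?_ ?_ ?_
  · rintro ⟨v, e⟩ h
    rw [mem_sigma, mem_filter] at h ⊢
    obtain ⟨⟨_, h1⟩, h2⟩ := h
    simp only at h1 h2 ⊢
    refine ⟨⟨mem_univ _, ?_⟩, mem_nb_tg h2⟩
    rw [nb_low h1, mem_compl] at h2
    exact card_tg_low h1 h2
  · rintro ⟨v, e⟩ h
    rw [mem_sigma, mem_filter] at h ⊢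
    obtain ⟨⟨_, h1⟩, h2⟩ := h
    simp only at h1 h2 ⊢
    refine ⟨⟨mem_univ _, ?_⟩, mem_nb_tg h2⟩
    rw [nb_high h1] at h2
    exact card_tg_high h1 h2
  · rintro ⟨v, e⟩ _; simp only [tg_tg]
  · rintro ⟨v, e⟩ _; simp only [tg_tg]
  · rintro ⟨v, e⟩ h
    rw [mem_sigma] at h
    exact (hG v e h.2).symm

lemma lev_card (n c : ℕ) :
    ((univ.filter (fun v : Finset (Fin n) => v.card = c)).card : ℝ) = (n.choose c : ℝ) := by
  rw [univ_filter_card_eq, card_powersetCard, card_univ, Fintype.card_fin]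

lemma sum_Sf {n t : ℕ} (α : Wt n) (Dl : ℕ → ℝ) (hD : ∀ c, 0 < Dl c) (h : Finset (Fin n) → ℝ)
    (v : Finset (Fin n)) :
    ∑ e ∈ nb t v, α v e * (1 + h v + h (tg v e)) = Dl v.card * Sf t α Dl h v := by
  have h1 := (hD v.card).ne'
  unfold Sf Bop nsum dg
  rw [mul_add, mul_div_cancel₀ _ h1, mul_left_comm, mul_div_cancel₀ _ h1, mul_sum,
    ← sum_add_distrib]
  exact sum_congr rfl (fun e _ => by ring)

lemma kk_close {n t : ℕ} (α : Wt n) (hα : ∀ v e, e ∈ nb t v → α (tg v e) e = α v e)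
    (hn : t < n) (δ : ℝ) (hD : ∀ c, 0 < Dn n t δ c) (h : Finset (Fin n) → ℝ) (kk : ℕ → ℝ)
    (η : ℝ) (hS : ∀ v, inL t v → |Sf t α (Dn n t δ) h v - kk v.card| ≤ η) :
    |kk t - kk (t + 1)| ≤ 2 * η := by
  set Dl := Dn n t δ with hDl
  have h1 := swap (t := t) (fun v e => α v e * (1 + h v + h (tg v e))) (by
    intro v e he
    rw [tg_tg, hα v e he]; ring)
  have h2 : ∀ v, ∑ e ∈ nb t v, α v e * (1 + h v + h (tg v e)) = Dl v.card * Sf t α Dl h v :=
    fun v => sum_Sf α Dl hD h v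
  simp only [h2] at h1
  have key : ∀ c, (c = t ∨ c = t + 1) →
      |∑ v ∈ univ.filter (fun v : Finset (Fin n) => v.card = c), Dl v.card * Sf t α Dl h v
        - Dl c * n.choose c * kk c| ≤ Dl c * n.choose c * η := by
    intro c hc
    have e1 : Dl c * n.choose c * kk c
        = ∑ v ∈ univ.filter (fun v : Finset (Fin n) => v.card = c), Dl c * kk c := by
      rw [sum_const, nsmul_eq_mul, lev_card]; ring
    have e2 : Dl c * n.choose c * η
        = ∑ v ∈ univ.filter (fun v : Finset (Fin n) => v.card = c), Dl c * η := by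
      rw [sum_const, nsmul_eq_mul, lev_card]; ring
    rw [e1, e2, ← sum_sub_distrib]
    refine (abs_sum_le_sum_abs _ _).trans (sum_le_sum (fun v hv => ?_))
    have hv' : v.card = c := (mem_filter.1 hv).2
    have hin : inL t v := by
      rcases hc with hc | hc
      · exact Or.inl (hv'.trans hc)
      · exact Or.inr (hv'.trans hc)
    rw [hv', ← mul_sub, abs_mul, abs_of_pos (hD c)]
    have := hS v hin
    rw [hv'] at this
    exact mul_le_mul_of_nonneg_left this (hD c).le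
  have hM : Dl (t + 1) * (n.choose (t + 1) : ℝ) = Dl t * (n.choose t : ℝ) := by
    rw [hDl, Dn_low, Dn_high]
    have h3 := Nat.choose_succ_right_eq n t
    have h4 : (n.choose (t + 1) : ℝ) * ((t + 1 : ℕ) : ℝ) = (n.choose t : ℝ) * ((n - t : ℕ) : ℝ) := by
      exact_mod_cast h3
    linear_combination δ * h4
  have k1 := key t (Or.inl rfl)
  have k2 := key (t + 1) (Or.inr rfl)
  rw [hM] at k2
  rw [h1] at k1
  set M := Dl t * (n.choose t : ℝ) with hMd
  have hMp : 0 < M := by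
    apply mul_pos (hD t)
    exact_mod_cast Nat.choose_pos hn.le
  set T := ∑ v ∈ univ.filter (fun v : Finset (Fin n) => v.card = t + 1),
    Dl v.card * Sf t α Dl h v with hT
  have h5 : |M * kk t - M * kk (t + 1)| ≤ 2 * (M * η) := by
    have := abs_sub_le (M * kk t) T (M * kk (t + 1))
    rw [abs_sub_comm (M * kk t) T] at this
    linarith
  rw [← mul_sub, abs_mul, abs_of_pos hMp] at h5
  have h6 : M * |kk t - kk (t + 1)| ≤ M * (2 * η) := by linarith
  exact le_of_mul_le_mul_left h6 hMp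

lemma cnt_mono {n t : ℕ} {α α' : Wt n} (hle : ∀ v e, α' v e ≤ α v e) (l : ℕ) :
    ∀ (v U w : Finset (Fin n)), cnt t α' l v U w ≤ cnt t α l v U w := by
  induction l with
  | zero => intro v U w; exact le_refl _
  | succ l ih =>
    intro v U w
    rw [cnt_succ, cnt_succ]
    refine sum_le_sum (fun e _ => ?_)
    exact mul_le_mul (hle v e) (ih _ _ _) (cnt_nonneg t α' _ _ _ _) (α.h0 v e)

lemma PiL_ge {t : ℕ} (Dl : ℕ → ℝ) (b : ℝ) (hb : 0 ≤ b) (hD : ∀ c, b ≤ Dl c) (l : ℕ) :
    ∀ c, b ^ l ≤ PiL t Dl l c := by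
  induction l with
  | zero => intro c; simp [PiL]
  | succ l ih =>
    intro c
    change b ^ (l + 1) ≤ Dl c * PiL t Dl l (oth t c)
    rw [pow_succ, mul_comm]
    exact mul_le_mul (hD c) (ih _) (by positivity) (hb.trans (hD c))

lemma PiL_le {t : ℕ} (Dl : ℕ → ℝ) (b : ℝ) (hD0 : ∀ c, 0 < Dl c) (hD : ∀ c, Dl c ≤ b) (l : ℕ) :
    ∀ c, PiL t Dl l c ≤ b ^ l := by
  induction l with
  | zero => intro c; simp [PiL]
  | succ l ih =>
    intro c
    change Dl c * PiL t Dl l (oth t c) ≤ b ^ (l + 1)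
    rw [pow_succ, mul_comm]
    exact mul_le_mul (ih _) (hD c) (hD0 c).le (pow_nonneg ((hD0 c).le.trans (hD c)) _)

lemma cnt_one {n t : ℕ} (α : Wt n) (w v : Finset (Fin n)) (e : Fin n) (he : e ∈ nb t w)
    (hv : tg w e = v) (h : α w e ≠ 0) : cnt t α 1 w ∅ v ≠ 0 := by
  have h1 : cnt t α (0 + 1) w ∅ v
      = ∑ e ∈ nb t w \ ∅, α w e * cnt t α 0 (tg w e) (insert e ∅) v := cnt_succ t α 0 w ∅ v
  rw [zero_add] at h1
  rw [h1]
  apply ne_of_gt
  apply sum_pos'
  · intro e' _
    exact mul_nonneg (α.h0 _ _) (cnt_nonneg t α _ _ _ _)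
  · refine ⟨e, by simpa using he, ?_⟩
    have h2 : cnt t α 0 (tg w e) (insert e ∅) v = 1 := if_pos hv
    rw [h2, mul_one]
    exact lt_of_le_of_ne (α.h0 _ _) (Ne.symm h)

open Classical in
/-- the edge is deleted, seen from either end -/
def DE {n : ℕ} (c0 : ℕ) (Dele : Finset (Fin n) → Fin n → Prop) (v : Finset (Fin n)) (e : Fin n) :
    Prop := if v.card = c0 then Dele v e else Dele (tg v e) e

lemma DE_tg {n t : ℕ} (c0 : ℕ) (hc0 : c0 = t ∨ c0 = t + 1) (Dele : Finset (Fin n) → Fin n → Prop)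
    {v : Finset (Fin n)} {e : Fin n} (he : e ∈ nb t v) : DE c0 Dele (tg v e) e ↔ DE c0 Dele v e := by
  unfold DE
  rw [tg_tg]
  rcases nb_cases he with ⟨h1, h2⟩ | ⟨h1, h2⟩
  · have h3 := card_tg_low h1 h2
    rcases hc0 with h | h
    · rw [if_neg (by omega), if_pos (by omega)]
    · rw [if_pos (by omega), if_neg (by omega)]
  · have h3 := card_tg_high h1 h2
    rcases hc0 with h | h
    · rw [if_pos (by omega), if_neg (by omega)]
    · rw [if_neg (by omega), if_pos (by omega)]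

open Classical in
/-- the weight without the deleted edges -/
noncomputable def al {n : ℕ} (c0 : ℕ) (Dele : Finset (Fin n) → Fin n → Prop) (α : Wt n) : Wt n where
  f v e := if DE c0 Dele v e then 0 else α v e
  h0 v e := by split_ifs; exacts [le_rfl, α.h0 v e]
  h1 v e := by split_ifs; exacts [zero_le_one, α.h1 v e]

open Classical in
lemma al_apply {n : ℕ} (c0 : ℕ) (Dele : Finset (Fin n) → Fin n → Prop) (α : Wt n)
    (v : Finset (Fin n)) (e : Fin n) :
    al c0 Dele α v e = if DE c0 Dele v e then 0 else α v e := rfl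

open Classical in
/-- few deleted edges at every vertex -/
lemma few_at {n t : ℕ} (α : Wt n) (hα : ∀ v e, e ∈ nb t v → α (tg v e) e = α v e) (c0 : ℕ)
    (hc0 : c0 = t ∨ c0 = t + 1) (Dele : Finset (Fin n) → Fin n → Prop) (K2 m : ℕ) (hm : Odd m)
    (hK2 : ∀ v, inL t v → ((univ : Finset (Finset (Fin n) × Fin n)).filter (fun y =>
      y.1.card = c0 ∧ y.2 ∈ nb t y.1 ∧ α y.1 y.2 ≠ 0 ∧ Dele y.1 y.2 ∧
      ∃ l ≤ m, cnt t α l y.1 ∅ v ≠ 0)).card ≤ K2) (v : Finset (Fin n)) (hv : inL t v) :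
    ((nb t v).filter (fun e => DE c0 Dele v e ∧ α v e ≠ 0)).card ≤ K2 := by
  refine le_trans ?_ (hK2 v hv)
  by_cases hvc : v.card = c0
  · apply card_le_card_of_injOn (fun e => (v, e))
    · intro e he
      rw [mem_coe, mem_filter] at he
      obtain ⟨h1, h2, h3⟩ := he
      rw [mem_coe, mem_filter]
      unfold DE at h2
      rw [if_pos hvc] at h2
      refine ⟨mem_univ _, hvc, h1, h3, h2, 0, Nat.zero_le _, ?_⟩
      have : cnt t α 0 v ∅ v = 1 := if_pos rfl
      rw [this]; exact one_ne_zero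
    · intro a _ b _ hab
      exact congrArg Prod.snd hab
  · apply card_le_card_of_injOn (fun e => (tg v e, e))
    · intro e he
      rw [mem_coe, mem_filter] at he
      obtain ⟨h1, h2, h3⟩ := he
      rw [mem_coe, mem_filter]
      unfold DE at h2
      rw [if_neg hvc] at h2
      have h4 := mem_nb_tg h1
      have h5 : α (tg v e) e ≠ 0 := by rw [hα v e h1]; exact h3
      have hc1 : (tg v e).card = c0 := by
        rcases nb_cases h1 with ⟨g1, g2⟩ | ⟨g1, g2⟩
        · have h3 := card_tg_low g1 g2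
          omega
        · have h3 := card_tg_high g1 g2
          omega
      refine ⟨mem_univ _, hc1, h4, h5, h2, 1, hm.pos, ?_⟩
      exact cnt_one α (tg v e) v e h4 (tg_tg v e) h5
    · intro a _ b _ hab
      exact congrArg Prod.snd hab

open Classical in
lemma dg_al {n t : ℕ} (α : Wt n) (c0 : ℕ) (Dele : Finset (Fin n) → Fin n → Prop) (K2 : ℕ)
    (v : Finset (Fin n))
    (hK : ((nb t v).filter (fun e => DE c0 Dele v e ∧ α v e ≠ 0)).card ≤ K2) :
    dg t α v - K2 ≤ dg t (al c0 Dele α) v ∧ dg t (al c0 Dele α) v ≤ dg t α v := by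
  constructor
  · have h1 : dg t α v - dg t (al c0 Dele α) v
        = ∑ e ∈ nb t v, (if DE c0 Dele v e then α v e else 0) := by
      unfold dg
      rw [← sum_sub_distrib]
      refine sum_congr rfl (fun e _ => ?_)
      rw [al_apply]
      split_ifs <;> ring
    have h2 : ∑ e ∈ nb t v, (if DE c0 Dele v e then α v e else 0)
        ≤ ∑ e ∈ nb t v, (if DE c0 Dele v e ∧ α v e ≠ 0 then (1:ℝ) else 0) := by
      refine sum_le_sum (fun e _ => ?_)
      by_cases hd : DE c0 Dele v e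
      · by_cases ha : α v e = 0
        · rw [if_pos hd, ha]; split_ifs <;> norm_num
        · rw [if_pos hd, if_pos ⟨hd, ha⟩]; exact α.h1 v e
      · rw [if_neg hd]; split_ifs <;> norm_num
    rw [sum_boole] at h2
    have h3 : (((nb t v).filter (fun e => DE c0 Dele v e ∧ α v e ≠ 0)).card : ℝ) ≤ K2 := by
      exact_mod_cast hK
    linarith
  · unfold dg
    refine sum_le_sum (fun e _ => ?_)
    rw [al_apply]
    split_ifs
    · exact α.h0 v e
    · exact le_rfl

lemma ratio_bounds (x u y s : ℝ) (hx : 0 < x) (hx1 : x ≤ 1 / 16) (hu1 : 1 - x ≤ u) (hu2 : u ≤ 1 + x)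
    (hy1 : 1 / 4 ≤ y) (hy2 : y ≤ 1 - 8 * x) (hs1 : 1 - x ≤ s) (hs2 : s ≤ 1 + x) :
    1 / 8 ≤ u * (y / s) ∧ u * (y / s) ≤ 1 - 4 * x := by
  have hs : 0 < s := by linarith
  rw [← mul_div_assoc]
  constructor
  · rw [le_div_iff₀ hs]
    have : (1 - x) * (1 / 4) ≤ u * y := mul_le_mul hu1 hy1 (by norm_num) (by linarith)
    nlinarith
  · rw [div_le_iff₀ hs]
    have h1 : u * y ≤ (1 + x) * (1 - 8 * x) := mul_le_mul hu2 hy2 (by linarith) (by linarith)
    have h2 : (1 - 4 * x) * (1 - x) ≤ (1 - 4 * x) * s := mul_le_mul_of_nonneg_left hs1 (by linarith)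
    nlinarith

end H26

open Classical in
theorem class_weights {n t : ℕ} (α : Wt n) (hα : ∀ v e, e ∈ nb t v → α (tg v e) e = α v e)
    (hα01 : ∀ v e, α v e = 0 ∨ α v e = 1) (c0 c1 : ℕ)
    (hc : (c0 = t ∧ c1 = t + 1) ∨ (c0 = t + 1 ∧ c1 = t)) (hn : t < n) (δ : ℝ) (hδ : 0 < δ)
    (b : ℝ) (hb : 1 ≤ b) (hD1 : ∀ c, b ≤ Dn n t δ c) (hD2 : ∀ c, Dn n t δ c ≤ 4 * b)
    (h : Finset (Fin n) → ℝ) (kk : ℕ → ℝ) (ε1 η : ℝ)
    (hh : ∀ v, inL t v → |h v| ≤ ε1) (hk : ∀ v : Finset (Fin n), inL t v → |kk v.card - 1| ≤ ε1)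
    (hS : ∀ v, inL t v → |Sf t α (Dn n t δ) h v - kk v.card| ≤ η)
    (hdg : ∀ v, inL t v → |dg t α v / Dn n t δ v.card - 1| ≤ ε1)
    (Dele : Finset (Fin n) → Fin n → Prop) (K2 m : ℕ) (hm : Odd m)
    (hK2 : ∀ v, inL t v → ((univ : Finset (Finset (Fin n) × Fin n)).filter (fun y =>
      y.1.card = c0 ∧ y.2 ∈ nb t y.1 ∧ α y.1 y.2 ≠ 0 ∧ Dele y.1 y.2 ∧
      ∃ l ≤ m, cnt t α l y.1 ∅ v ≠ 0)).card ≤ K2)
    (D : ℕ) (δ1 : ℝ) (hδ1 : 0 < δ1) (hδ1' : δ1 ≤ 1 / 2) (hDu : (D : ℝ) ≤ (1 - δ1) * Dn n t δ c0)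
    (hDl : Dn n t δ c0 ≤ 4 * D) (hε : ε1 ≤ δ1 / 16) (hη0 : 0 ≤ η) (hη : η ≤ δ1 / 16)
    (hsmall : 2 * (K2 : ℝ) ^ 2 * m.factorial * 16 ^ m ≤ δ1 / 8 * b)
    (hbm : 4 * ((K2 : ℝ) + m) ≤ b) :
    ∃ f : Finset (Fin n) → Fin n → ℝ, (∀ v e, e ∈ nb t v → f (tg v e) e = f v e) ∧
      (∀ v e, inL t v → e ∈ nb t v → 0 ≤ f v e ∧ f v e ≤ 1) ∧
      (∀ v e, v.card = c0 → e ∈ nb t v → f v e ≠ 0 → α v e ≠ 0 ∧ ¬ Dele v e) ∧
      (∀ v, v.card = c0 → ∑ e ∈ nb t v, f v e = D) ∧
      (∀ v, v.card = c1 → ∑ e ∈ nb t v, f v e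
        ≤ D * ((1 + 8 * η) * (Dn n t δ c1 / Dn n t δ c0))
          + (K2 : ℝ) ^ 2 * m.factorial * (2 / b) ^ m) := by
  have hc0 : c0 = t ∨ c0 = t + 1 := by omega
  have hc1 : c1 = t ∨ c1 = t + 1 := by omega
  have hD0 : ∀ c, 0 < Dn n t δ c := fun c => by linarith [hD1 c]
  have hbp : 0 < b := by linarith
  set Dl := Dn n t δ with hDld
  have hε0 : 0 ≤ ε1 := by
    obtain ⟨v, hv⟩ : ∃ v : Finset (Fin n), v.card = t := by
      obtain ⟨v, _, hv⟩ := exists_subset_card_eq (s := (univ : Finset (Fin n))) (n := t)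
        (by rw [card_univ, Fintype.card_fin]; exact hn.le)
      exact ⟨v, hv⟩
    exact (abs_nonneg _).trans (hh v (Or.inl hv))
  have lev0 : ∀ v : Finset (Fin n), v.card = c0 → inL t v := by
    intro v hv; rcases hc0 with h | h
    · exact Or.inl (hv.trans h)
    · exact Or.inr (hv.trans h)
  have lev1 : ∀ v : Finset (Fin n), v.card = c1 → inL t v := by
    intro v hv; rcases hc1 with h | h
    · exact Or.inl (hv.trans h)
    · exact Or.inr (hv.trans h)
  have hother : ∀ (v : Finset (Fin n)) (e : Fin n), e ∈ nb t v → (v.card = c0 ∧ (tg v e).card = c1) ∨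
      (v.card = c1 ∧ (tg v e).card = c0) := by
    intro v e he
    rcases nb_cases he with ⟨g1, g2⟩ | ⟨g1, g2⟩
    · have h3 := card_tg_low g1 g2
      omega
    · have h3 := card_tg_high g1 g2
      omega
  have hc01 : c0 ≠ c1 := by omega
  -- bounds for kk and Sf
  have hkc0 : |kk c0 - 1| ≤ ε1 := by
    obtain ⟨v, _, hv⟩ := exists_subset_card_eq (s := (univ : Finset (Fin n))) (n := c0)
      (by rw [card_univ, Fintype.card_fin]; omega)
    have := hk v (lev0 v hv)
    rwa [hv] at this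
  have hkk : |kk c0 - kk c1| ≤ 2 * η := by
    have h1 := H26.kk_close α hα hn δ hD0 h kk η hS
    rcases hc with ⟨e1, e2⟩ | ⟨e1, e2⟩
    · rw [e1, e2]; exact h1
    · rw [e1, e2, abs_sub_comm]; exact h1
  have hSf : ∀ v, v.card = c0 → |Sf t α Dl h v - 1| ≤ δ1 / 8 := by
    intro v hv
    have h1 := hS v (lev0 v hv)
    rw [hv] at h1
    have h2 := abs_sub_le (Sf t α Dl h v) (kk c0) 1
    linarith
  -- the weights
  set base : Finset (Fin n) → ℝ := fun v => (D : ℝ) / (Dl c0 * Sf t α Dl h v) with hbase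
  set f1 : Finset (Fin n) → Fin n → ℝ := fun v e =>
    α v e * (1 + h v + h (tg v e)) * (if v.card = c0 then base v else base (tg v e)) with hf1
  have f1_sym : ∀ v e, e ∈ nb t v → f1 (tg v e) e = f1 v e := by
    intro v e he
    simp only [hf1, tg_tg]
    rw [hα v e he]
    rcases hother v e he with ⟨g1, g2⟩ | ⟨g1, g2⟩
    · rw [if_neg (by rw [g2]; exact hc01.symm), if_pos g1]; ring
    · rw [if_pos g2, if_neg (by rw [g1]; exact hc01.symm)]; ring
  have f1_bd : ∀ v e, e ∈ nb t v → α v e ≠ 0 → 1 / 8 ≤ f1 v e ∧ f1 v e ≤ 1 - δ1 / 2 := by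
    have main : ∀ v e, e ∈ nb t v → v.card = c0 → α v e ≠ 0 →
        1 / 8 ≤ f1 v e ∧ f1 v e ≤ 1 - δ1 / 2 := by
      intro v e he hv ha
      simp only [hf1]
      rw [if_pos hv, (hα01 v e).resolve_left ha, one_mul]
      have h1 := abs_le.1 (hh v (lev0 v hv))
      have h2 := abs_le.1 (hh (tg v e) (inL_tg he))
      have h3 := abs_le.1 (hSf v hv)
      have hDc := hD0 c0
      have e1 : base v = (D / Dl c0) / Sf t α Dl h v := by
        simp only [hbase]; rw [div_div]
      rw [e1]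
      have h4 : (D : ℝ) / Dl c0 ≤ 1 - 8 * (δ1 / 8) := by
        rw [div_le_iff₀ hDc]; linarith
      have h5 : 1 / 4 ≤ (D : ℝ) / Dl c0 := by
        rw [le_div_iff₀ hDc]; linarith
      have := H26.ratio_bounds (δ1 / 8) (1 + h v + h (tg v e)) (D / Dl c0) (Sf t α Dl h v)
        (by linarith) (by linarith) (by linarith) (by linarith) h5 h4 (by linarith) (by linarith)
      constructor
      · exact this.1
      · linarith [this.2]
    intro v e he ha
    rcases hother v e he with ⟨g1, g2⟩ | ⟨g1, g2⟩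
    · exact main v e he g1 ha
    · have := main (tg v e) e (mem_nb_tg he) g2 (by rw [hα v e he]; exact ha)
      rwa [f1_sym v e he] at this
  have f1_zero : ∀ v e, α v e = 0 → f1 v e = 0 := by
    intro v e ha; simp only [hf1]; rw [ha]; ring
  have f1_nn : ∀ v e, e ∈ nb t v → 0 ≤ f1 v e ∧ f1 v e ≤ 1 := by
    intro v e he
    by_cases ha : α v e = 0
    · rw [f1_zero v e ha]; exact ⟨le_rfl, zero_le_one⟩
    · have := f1_bd v e he ha
      constructor <;> linarith
  have f1_sum0 : ∀ v, v.card = c0 → ∑ e ∈ nb t v, f1 v e = D := by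
    intro v hv
    have h1 : ∑ e ∈ nb t v, f1 v e = (∑ e ∈ nb t v, α v e * (1 + h v + h (tg v e))) * base v := by
      rw [sum_mul]
      refine sum_congr rfl (fun e _ => ?_)
      simp only [hf1]
      rw [if_pos hv]
    rw [h1, H26.sum_Sf α Dl hD0, hv]
    simp only [hbase]
    have h3 := abs_le.1 (hSf v hv)
    have h4 : 0 < Sf t α Dl h v := by linarith
    exact mul_div_cancel₀ _ (mul_pos (hD0 c0) h4).ne'
  have f1_sum1 : ∀ v, v.card = c1 → ∑ e ∈ nb t v, f1 v e
      ≤ D * ((1 + 8 * η) * (Dl c1 / Dl c0)) := by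
    intro v hv
    have hk1 := abs_le.1 hkc0
    have hk2 := abs_le.1 hkk
    have hden : 0 < kk c0 - η := by linarith
    have hle : ∀ e ∈ nb t v, f1 v e
        ≤ α v e * (1 + h v + h (tg v e)) * (D / (Dl c0 * (kk c0 - η))) := by
      intro e he
      simp only [hf1]
      rw [if_neg (by rw [hv]; exact hc01.symm)]
      have hcard : (tg v e).card = c0 := by
        rcases hother v e he with ⟨g1, g2⟩ | ⟨g1, g2⟩
        · exact absurd (g1.symm.trans hv) hc01
        · exact g2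
      apply mul_le_mul_of_nonneg_left
      · simp only [hbase]
        apply div_le_div_of_nonneg_left (Nat.cast_nonneg _) (mul_pos (hD0 c0) hden)
        apply mul_le_mul_of_nonneg_left _ (hD0 c0).le
        have h1 := hS (tg v e) (inL_tg he)
        rw [hcard] at h1
        have := (abs_le.1 h1).1
        linarith
      · apply mul_nonneg (α.h0 v e)
        have h1 := abs_le.1 (hh v (lev1 v hv))
        have h2 := abs_le.1 (hh (tg v e) (inL_tg he))
        linarith
    refine (sum_le_sum hle).trans ?_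
    rw [← sum_mul, H26.sum_Sf α Dl hD0, hv]
    have h1 := hS v (lev1 v hv)
    rw [hv] at h1
    have h2 := (abs_le.1 h1).2
    have h3 : Sf t α Dl h v ≤ (1 + 8 * η) * (kk c0 - η) := by
      nlinarith
    have hDc := hD0 c0
    have hDc1 := hD0 c1
    have e1 : Dl c1 * Sf t α Dl h v * (D / (Dl c0 * (kk c0 - η)))
        = (D * (Dl c1 / Dl c0)) * (Sf t α Dl h v / (kk c0 - η)) := by
      field_simp
    have e2 : (D : ℝ) * ((1 + 8 * η) * (Dl c1 / Dl c0)) = (D * (Dl c1 / Dl c0)) * (1 + 8 * η) := by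
      ring
    rw [e1, e2]
    apply mul_le_mul_of_nonneg_left _ (by positivity)
    rw [div_le_iff₀ hden]
    exact h3
  -- deletion
  set α' : Wt n := H26.al c0 Dele α with hα'
  have hα's : ∀ v e, e ∈ nb t v → α' (tg v e) e = α' v e := by
    intro v e he
    rw [hα', H26.al_apply, H26.al_apply, hα v e he]
    simp only [H26.DE_tg c0 hc0 Dele he]
  have hα'le : ∀ v e, α' v e ≤ α v e := by
    intro v e
    rw [hα', H26.al_apply]
    split_ifs
    · exact α.h0 v e
    · exact le_rfl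
  have hfew := H26.few_at α hα c0 hc0 Dele K2 m hm hK2
  set f2 : Finset (Fin n) → Fin n → ℝ := fun v e => if H26.DE c0 Dele v e then 0 else f1 v e
    with hf2
  have f2_sym : ∀ v e, e ∈ nb t v → f2 (tg v e) e = f2 v e := by
    intro v e he
    simp only [hf2, f1_sym v e he, H26.DE_tg c0 hc0 Dele he]
  set q : Finset (Fin n) → ℝ := fun v => if v.card = c0 then
    ∑ e ∈ nb t v, (if H26.DE c0 Dele v e then f1 v e else 0) else 0 with hq
  have q0 : ∀ v, 0 ≤ q v := by
    intro v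
    simp only [hq]
    split_ifs with h1
    · refine sum_nonneg (fun e he => ?_)
      split_ifs
      · exact (f1_nn v e he).1
      · exact le_rfl
    · exact le_rfl
  have qQ : ∀ v, q v ≤ (K2 : ℝ) := by
    intro v
    simp only [hq]
    split_ifs with h1
    · have h2 : ∑ e ∈ nb t v, (if H26.DE c0 Dele v e then f1 v e else 0)
          ≤ ∑ e ∈ nb t v, (if H26.DE c0 Dele v e ∧ α v e ≠ 0 then (1:ℝ) else 0) := by
        refine sum_le_sum (fun e he => ?_)
        by_cases hd : H26.DE c0 Dele v e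
        · by_cases ha : α v e = 0
          · rw [if_pos hd, f1_zero v e ha]; split_ifs <;> norm_num
          · rw [if_pos hd, if_pos ⟨hd, ha⟩]; exact (f1_nn v e he).2
        · rw [if_neg hd]; split_ifs <;> norm_num
      rw [sum_boole] at h2
      refine h2.trans ?_
      exact_mod_cast hfew v (lev0 v h1)
    · positivity
  have qc : ∀ v, q v ≠ 0 → v.card = c0 := by
    intro v hv
    by_contra hne
    apply hv
    simp only [hq]
    rw [if_neg hne]
  have qe : ∀ v, q v ≠ 0 → ∃ e ∈ nb t v, α v e ≠ 0 ∧ Dele v e := by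
    intro v hv
    have hvc := qc v hv
    simp only [hq] at hv
    rw [if_pos hvc] at hv
    obtain ⟨e, he, hne⟩ := exists_ne_zero_of_sum_ne_zero hv
    refine ⟨e, he, ?_⟩
    by_cases hd : H26.DE c0 Dele v e
    · rw [if_pos hd] at hne
      refine ⟨fun ha => hne (f1_zero v e ha), ?_⟩
      unfold H26.DE at hd
      rwa [if_pos hvc] at hd
    · rw [if_neg hd] at hne; exact absurd rfl hne
  have hdglo : ∀ v : Finset (Fin n), inL t v → 1 / 2 * Dl v.card ≤ dg t α' v - m := by
    intro v hv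
    have h1 := (H26.dg_al α c0 Dele K2 v (hfew v hv)).1
    have h2 := (abs_le.1 (hdg v hv)).1
    have h3 := hD0 v.card
    have h4 : (1 - ε1) * Dl v.card ≤ dg t α v := by
      have : 1 - ε1 ≤ dg t α v / Dl v.card := by linarith
      rwa [le_div_iff₀ h3] at this
    have h5 := hD1 v.card
    have h6 : (1 - ε1) * Dl v.card ≥ 3 / 4 * Dl v.card :=
      mul_le_mul_of_nonneg_right (by linarith) h3.le
    linarith
  have hdghi : ∀ v : Finset (Fin n), inL t v → dg t α' v ≤ 2 * Dl v.card := by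
    intro v hv
    have h1 := (H26.dg_al α c0 Dele K2 v (hfew v hv)).2
    have h2 := (abs_le.1 (hdg v hv)).2
    have h3 := hD0 v.card
    have h4 : dg t α v ≤ (1 + ε1) * Dl v.card := by
      have : dg t α v / Dl v.card ≤ 1 + ε1 := by linarith
      rwa [div_le_iff₀ h3] at this
    have h6 : (1 + ε1) * Dl v.card ≤ 2 * Dl v.card :=
      mul_le_mul_of_nonneg_right (by linarith) h3.le
    linarith
  obtain ⟨φ, p1, p2, p3, p4⟩ := repair α' hα's c0 hc0 m hm q q0 (K2 : ℝ) qQ qc
    ((b / 2) ^ m) (by positivity)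
    (by
      intro v hv
      have h1 := NO_ge t α' Dl hD0 (1 / 2) (by norm_num) m hdglo m v ∅ (lev0 v hv) (by simp)
      refine le_trans ?_ h1
      have h2 := H26.PiL_ge (t := t) Dl b hbp.le hD1 m v.card
      calc (b / 2) ^ m = (1 / 2) ^ m * b ^ m := by rw [← mul_pow]; congr 1; ring
        _ ≤ (1 / 2) ^ m * PiL t Dl m v.card := mul_le_mul_of_nonneg_left h2 (by positivity))
    (8 * b) (by linarith)
    (by
      intro l v U _ hv
      have h1 := NO_le t α' Dl hD0 2 (by norm_num) hdghi l v U hv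
      refine h1.trans ?_
      have h2 := H26.PiL_le (t := t) Dl (4 * b) hD0 hD2 l v.card
      calc 2 ^ l * PiL t Dl l v.card ≤ 2 ^ l * (4 * b) ^ l :=
            mul_le_mul_of_nonneg_left h2 (by positivity)
        _ = (8 * b) ^ l := by rw [← mul_pow]; congr 1; ring)
    K2
    (by
      intro v hv
      refine le_trans ?_ (hK2 v hv)
      refine le_trans (card_le_card ?_) (card_image_le (f := Prod.fst))
      intro w hw
      rw [mem_filter] at hw
      obtain ⟨_, hqw, l, hl, hcnt⟩ := hw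
      obtain ⟨e, he, ha, hd⟩ := qe w hqw
      rw [mem_image]
      refine ⟨(w, e), ?_, rfl⟩
      rw [mem_filter]
      refine ⟨mem_univ _, qc w hqw, he, ha, hd, l, hl, ?_⟩
      have h1 := H26.cnt_mono (t := t) hα'le l w ∅ v
      have h2 := cnt_nonneg t α' l w ∅ v
      have h3 : 0 < cnt t α' l w ∅ v := lt_of_le_of_ne h2 (Ne.symm hcnt)
      exact (h3.trans_le h1).ne')
  have hphi : ∀ v e, e ∈ nb t v → |φ v e| ≤ α' v e * (δ1 / 64) := by
    intro v e he
    refine (p2 v e he).trans (mul_le_mul_of_nonneg_left ?_ (α'.h0 v e))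
    rw [div_le_iff₀ (by positivity)]
    obtain ⟨m', rfl⟩ : ∃ m', m = m' + 1 := ⟨m - 1, by have := hm.pos; omega⟩
    have e1 : (8 * b) ^ (m' + 1 - 1) * (8 * b) * 2 ^ (m' + 1) = 16 ^ (m' + 1) * b ^ (m' + 1) := by
      rw [Nat.add_sub_cancel, ← pow_succ, ← mul_pow, ← mul_pow]
      congr 1; ring
    have e2 : (b / 2) ^ (m' + 1) * 2 ^ (m' + 1) = b ^ (m' + 1) := by
      rw [← mul_pow]; congr 1; ring
    have h1 : 2 * (K2:ℝ) * K2 * (m' + 1).factorial * (8 * b) ^ (m' + 1 - 1) * ((8 * b) * 2 ^ (m' + 1))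
        ≤ δ1 / 64 * (b / 2) ^ (m' + 1) * ((8 * b) * 2 ^ (m' + 1)) := by
      have e3 : 2 * (K2:ℝ) * K2 * (m' + 1).factorial * (8 * b) ^ (m' + 1 - 1)
          * ((8 * b) * 2 ^ (m' + 1))
          = (2 * (K2:ℝ) ^ 2 * (m' + 1).factorial * 16 ^ (m' + 1)) * b ^ (m' + 1) := by
        linear_combination (2 * (K2:ℝ) * K2 * (m' + 1).factorial) * e1
      have e4 : δ1 / 64 * (b / 2) ^ (m' + 1) * ((8 * b) * 2 ^ (m' + 1))
          = (δ1 / 8 * b) * b ^ (m' + 1) := by
        linear_combination (δ1 / 8 * b) * e2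
      rw [e3, e4]
      exact mul_le_mul_of_nonneg_right hsmall (by positivity)
    exact le_of_mul_le_mul_right h1 (by positivity)
  have hphi0 : ∀ v e, e ∈ nb t v → (H26.DE c0 Dele v e ∨ α v e = 0) → φ v e = 0 := by
    intro v e he hz
    have h1 := hphi v e he
    have h2 : α' v e = 0 := by
      rw [hα', H26.al_apply]
      rcases hz with hz | hz
      · rw [if_pos hz]
      · rw [hz]; split_ifs <;> rfl
    rw [h2, zero_mul] at h1
    exact abs_nonpos_iff.1 h1
  have hphile : ∀ v e, e ∈ nb t v → |φ v e| ≤ δ1 / 64 := by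
    intro v e he
    refine (hphi v e he).trans ?_
    have := α'.h1 v e
    nlinarith [α'.h0 v e]
  refine ⟨fun v e => f2 v e + φ v e, ?_, ?_, ?_, ?_, ?_⟩
  · intro v e he
    simp only
    rw [f2_sym v e he, p1 v e he]
  · intro v e _ he
    simp only
    by_cases hd : H26.DE c0 Dele v e
    · rw [hphi0 v e he (Or.inl hd)]
      simp only [hf2, if_pos hd]
      constructor <;> norm_num
    · by_cases ha : α v e = 0
      · rw [hphi0 v e he (Or.inr ha)]
        simp only [hf2, if_neg hd]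
        rw [f1_zero v e ha]
        constructor <;> norm_num
      · simp only [hf2, if_neg hd]
        have h1 := f1_bd v e he ha
        have h2 := abs_le.1 (hphile v e he)
        constructor <;> linarith
  · intro v e hv he hne
    simp only at hne
    by_cases hd : H26.DE c0 Dele v e
    · exfalso; apply hne
      rw [hphi0 v e he (Or.inl hd)]
      simp only [hf2, if_pos hd]
      norm_num
    · by_cases ha : α v e = 0
      · exfalso; apply hne
        rw [hphi0 v e he (Or.inr ha)]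
        simp only [hf2, if_neg hd]
        rw [f1_zero v e ha]
        norm_num
      · refine ⟨ha, ?_⟩
        unfold H26.DE at hd
        rwa [if_pos hv] at hd
  · intro v hv
    rw [sum_add_distrib, p3 v hv]
    simp only [hq]
    rw [if_pos hv, ← sum_add_distrib, ← f1_sum0 v hv]
    refine sum_congr rfl (fun e _ => ?_)
    simp only [hf2]
    split_ifs <;> ring
  · intro v hv
    rw [sum_add_distrib]
    apply add_le_add
    · refine le_trans (sum_le_sum (fun e he => ?_)) (f1_sum1 v hv)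
      simp only [hf2]
      split_ifs
      · exact (f1_nn v e he).1
      · exact le_rfl
    · refine (le_abs_self _).trans ((p4 v (lev1 v hv) (by rw [hv]; exact hc01.symm)).trans
        (le_of_eq ?_))
      rw [div_pow, div_pow]
      field_simp

end Pool.Agent.SK.Lin
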