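import Pool.Agent.Lib.MP_5fcc10_co_lin.DPDefs

/-! Weights of double paths: elementary facts about the edges of paths. -/

set_option linter.unusedSectionVars false

namespace Pool.Agent.SK.Lin.H26

open Finset
open scoped symmDiff

variable {n p : ℕ}

lemma pe_snd (Z : Finset (Fin n)) {d : ℕ} (a : Fin d → Fin n) (r : Fin d) :
    (pe Z a r).2 = some (a r) := rfl

lemma pe_injective (Z : Finset (Fin n)) {d : ℕ} (a : Fin d → Fin n) (ha : Function.Injective a) :
    Function.Injective (pe Z a) := by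
  intro r s h
  have h2 := congrArg Prod.snd h
  rw [pe_snd, pe_snd] at h2
  exact ha (Option.some.inj h2)

lemma mem_seg {d : ℕ} {a : Fin d → Fin n} {l : ℕ} {e : Fin n} :
    e ∈ (univ.filter (fun r : Fin d => r.val < l)).image a ↔ ∃ r : Fin d, r.val < l ∧ a r = e := by
  simp only [mem_image, mem_filter, mem_univ, true_and]

lemma erase_symmDiff_eq {w A B : Finset (Fin n)} {e : Fin n} (hA : e ∉ A) (hB : e ∉ B)
    (h : (w ∆ A).erase e = (w ∆ B).erase e) : A = B := by
  ext x
  by_cases hx : x = e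
  · subst hx; simp [hA, hB]
  · have h1 : x ∈ (w ∆ A).erase e ↔ x ∈ (w ∆ B).erase e := by rw [h]
    simp only [mem_erase, mem_symmDiff] at h1
    by_cases hw : x ∈ w <;> by_cases hxA : x ∈ A <;> by_cases hxB : x ∈ B <;> simp_all

/-- the two edges of a double path in the same direction are different -/
lemma pe_ne {d : ℕ} (hd : 2 ≤ d) (w : Finset (Fin n)) (a : Fin d → Fin n)
    (ha : Function.Injective a) (π : Equiv.Perm (Fin d)) (hπ : conn π) (s : Fin d) :
    pe w a (π s) ≠ pe w (a ∘ π) s := by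
  intro h
  have h1 := congrArg Prod.fst h
  change (w ∆ _).erase (a (π s)) = (w ∆ _).erase (a (π s)) at h1
  have hA : a (π s) ∉ (univ.filter (fun r : Fin d => r.val < (π s).val)).image a := by
    rw [mem_seg]
    rintro ⟨r, hr, hr'⟩
    rw [ha hr'] at hr
    exact lt_irrefl _ hr
  have hB : a (π s) ∉ (univ.filter (fun r : Fin d => r.val < s.val)).image (a ∘ π) := by
    rw [mem_seg]
    rintro ⟨r, hr, hr'⟩
    rw [π.injective (ha hr')] at hr
    exact lt_irrefl _ hr
  have h2 := erase_symmDiff_eq hA hB h1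
  -- the segments have the same size
  have hc : (π s).val = s.val := by
    have h3 := congrArg Finset.card h2
    rw [card_image_of_injective _ ha, card_image_of_injective _ (ha.comp π.injective)] at h3
    have h4 : ∀ l : ℕ, l ≤ d → (univ.filter (fun r : Fin d => r.val < l)).card = l := by
      intro l hl
      have : (univ.filter (fun r : Fin d => r.val < l)) = (univ : Finset (Fin l)).map
          (Fin.castLEEmb hl) := by
        ext r
        simp only [mem_filter, mem_univ, true_and, mem_map]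
        constructor
        · intro hr
          exact ⟨⟨r.val, hr⟩, rfl⟩
        · rintro ⟨q, rfl⟩
          exact q.isLt
      rw [this, card_map, card_univ, Fintype.card_fin]
    rw [h4 _ (π s).isLt.le, h4 _ s.isLt.le] at h3
    exact h3
  have hstab : ∀ r : Fin d, r.val < s.val → (π r).val < s.val := by
    intro r hr
    have h3 : (a ∘ π) r ∈ (univ.filter (fun r : Fin d => r.val < (π s).val)).image a := by
      rw [h2, mem_seg]
      exact ⟨r, hr, rfl⟩
    rw [mem_seg] at h3
    obtain ⟨q, hq, hq'⟩ := h3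
    rw [← ha hq', ← hc]
    exact hq
  rcases Nat.eq_zero_or_pos s.val with h0 | h0
  · refine hπ 1 one_pos (by omega) (fun r hr => ?_)
    have : r = s := Fin.ext (by omega)
    rw [this, hc, h0]
    exact one_pos
  · exact hπ s.val h0 s.isLt hstab

lemma pes_disjoint {d : ℕ} (hd : 2 ≤ d) (w : Finset (Fin n)) (a : Fin d → Fin n)
    (ha : Function.Injective a) (π : Equiv.Perm (Fin d)) (hπ : conn π) :
    Disjoint (pes w a) (pes w (a ∘ π)) := by
  rw [disjoint_left]
  intro y h1 h2
  unfold pes at h1 h2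
  rw [mem_image] at h1 h2
  obtain ⟨r, _, hr⟩ := h1
  obtain ⟨s, _, hs⟩ := h2
  have h3 : a r = a (π s) := by
    have := congrArg Prod.snd (hr.trans hs.symm)
    rw [pe_snd, pe_snd] at this
    exact Option.some.inj this
  have h4 := ha h3
  apply pe_ne hd w a ha π hπ s
  rw [← h4, hr, hs]

lemma mem_pes {Z : Finset (Fin n)} {d : ℕ} {a : Fin d → Fin n} {y : Ix n} :
    y ∈ pes Z a ↔ ∃ r, pe Z a r = y := by
  unfold pes
  simp

/-- the directions of a set of coordinates -/
def dirs (X : Finset (Ix n)) : Finset (Fin n) :=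
  univ.filter (fun e => some e ∈ X.image Prod.snd)

lemma mem_dirs {X : Finset (Ix n)} {e : Fin n} : e ∈ dirs X ↔ ∃ y ∈ X, y.2 = some e := by
  unfold dirs
  simp only [mem_filter, mem_univ, true_and, mem_image]

lemma card_dirs (X : Finset (Ix n)) : (dirs X).card ≤ X.card := by
  have h : (dirs X).map Function.Embedding.some ⊆ X.image Prod.snd := by
    intro o ho
    rw [mem_map] at ho
    obtain ⟨e, he, rfl⟩ := ho
    exact (mem_filter.1 he).2
  calc (dirs X).card = ((dirs X).map Function.Embedding.some).card := (card_map _).symm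
    _ ≤ (X.image Prod.snd).card := card_le_card h
    _ ≤ X.card := card_image_le

/-- weight of a coordinate: `1` if it is revealed, `q` otherwise -/
noncomputable def om (q : ℝ) (X : Finset (Ix n)) (y : Ix n) : ℝ := if y ∈ X then 1 else q

lemma om_in {q : ℝ} {X : Finset (Ix n)} {y : Ix n} (h : y ∈ X) : om q X y = 1 := if_pos h

lemma om_out {q : ℝ} {X : Finset (Ix n)} {y : Ix n} (h : y ∉ X) : om q X y = q := if_neg h

lemma om_nonneg {q : ℝ} (hq : 0 ≤ q) (X : Finset (Ix n)) (y : Ix n) : 0 ≤ om q X y := by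
  unfold om; split_ifs <;> linarith

lemma prod_om (q : ℝ) (X Y : Finset (Ix n)) : ∏ y ∈ Y, om q X y = q ^ (Y \ X).card := by
  unfold om
  rw [prod_ite, prod_const_one, one_mul, prod_const]
  congr 2
  ext y
  simp [mem_sdiff]

lemma prod_om_pe (q : ℝ) (X : Finset (Ix n)) (Z : Finset (Fin n)) {d : ℕ} (a : Fin d → Fin n)
    (ha : Function.Injective a) : ∏ r, om q X (pe Z a r) = q ^ (pes Z a \ X).card := by
  rw [← prod_om, pes, prod_image (fun r _ s _ h => pe_injective Z a ha h)]

/-- bounds for pairs of different edges in the same direction -/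
noncomputable def fw (q : ℝ) (X : Finset (Ix n)) (e : Fin n) : ℝ := (if e ∈ dirs X then 1 else 0) + q

noncomputable def hw (q : ℝ) (X : Finset (Ix n)) (e : Fin n) : ℝ :=
  (if e ∈ dirs X then 1 else 0) + q ^ 2

lemma fw_nonneg {q : ℝ} (hq : 0 ≤ q) (X : Finset (Ix n)) (e : Fin n) : 0 ≤ fw q X e := by
  unfold fw; split_ifs <;> linarith

lemma hw_nonneg {q : ℝ} (X : Finset (Ix n)) (e : Fin n) : 0 ≤ hw q X e := by
  unfold hw; split_ifs <;> positivity

lemma sum_fw (q : ℝ) (X : Finset (Ix n)) : ∑ e, fw q X e ≤ X.card + n * q := by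
  unfold fw
  rw [sum_add_distrib, sum_boole, sum_const, card_univ, Fintype.card_fin, nsmul_eq_mul]
  have h : (((univ.filter (fun e => e ∈ dirs X)).card : ℕ) : ℝ) ≤ X.card := by
    rw [filter_mem_eq_inter, univ_inter]
    exact_mod_cast card_dirs X
  linarith

lemma sum_hw (q : ℝ) (X : Finset (Ix n)) : ∑ e, hw q X e ≤ X.card + n * q ^ 2 := by
  unfold hw
  rw [sum_add_distrib, sum_boole, sum_const, card_univ, Fintype.card_fin, nsmul_eq_mul]
  have h : (((univ.filter (fun e => e ∈ dirs X)).card : ℕ) : ℝ) ≤ X.card := by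
    rw [filter_mem_eq_inter, univ_inter]
    exact_mod_cast card_dirs X
  linarith

lemma sum_om_ed (q : ℝ) (hq : 0 ≤ q) (X : Finset (Ix n)) (u : Finset (Fin n)) :
    ∑ e, om q X (ed u e) ≤ X.card + n * q := by
  refine le_trans (sum_le_sum (fun e _ => ?_)) (sum_fw q X)
  unfold om fw
  by_cases h : ed u e ∈ X
  · rw [if_pos h, if_pos (mem_dirs.2 ⟨_, h, rfl⟩)]; linarith
  · rw [if_neg h]; split_ifs <;> linarith

/-- one of the edges is not in `X`: the product is at most `q * fw` -/
lemma om_mul_le_fw {q : ℝ} (hq0 : 0 ≤ q) (hq1 : q ≤ 1) {X : Finset (Ix n)} {y z : Ix n} {e : Fin n}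
    (hy : y.2 = some e) (hz : z.2 = some e) (h : ¬ (y ∈ X ∧ z ∈ X)) :
    om q X y * om q X z ≤ q * fw q X e := by
  have hqq : q * q ≤ q := by nlinarith
  unfold om fw
  by_cases h1 : y ∈ X
  · have h2 : z ∉ X := fun h2 => h ⟨h1, h2⟩
    rw [if_pos h1, if_neg h2, if_pos (mem_dirs.2 ⟨_, h1, hy⟩)]
    nlinarith
  · rw [if_neg h1]
    by_cases h2 : z ∈ X
    · rw [if_pos h2, if_pos (mem_dirs.2 ⟨_, h2, hz⟩)]
      nlinarith
    · rw [if_neg h2]
      split_ifs <;> nlinarith

lemma om_mul_le_hw {q : ℝ} (hq0 : 0 ≤ q) (hq1 : q ≤ 1) {X : Finset (Ix n)} {y z : Ix n} {e : Fin n}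
    (hy : y.2 = some e) (hz : z.2 = some e) :
    om q X y * om q X z ≤ hw q X e := by
  have hqq : q * q ≤ q := by nlinarith
  unfold om hw
  by_cases h1 : y ∈ X
  · rw [if_pos h1, if_pos (mem_dirs.2 ⟨_, h1, hy⟩)]
    split_ifs <;> nlinarith
  · rw [if_neg h1]
    by_cases h2 : z ∈ X
    · rw [if_pos h2, if_pos (mem_dirs.2 ⟨_, h2, hz⟩)]
      nlinarith
    · rw [if_neg h2]
      split_ifs <;> nlinarith

/-- a path has at most one edge in each direction -/
lemma pes_unique {Z : Finset (Fin n)} {d : ℕ} {a : Fin d → Fin n} (ha : Function.Injective a)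
    {y z : Ix n} (hy : y ∈ pes Z a) (hz : z ∈ pes Z a) (h : y.2 = z.2) : y = z := by
  rw [mem_pes] at hy hz
  obtain ⟨r, rfl⟩ := hy
  obtain ⟨s, rfl⟩ := hz
  rw [pe_snd, pe_snd] at h
  rw [ha (Option.some.inj h)]

end Pool.Agent.SK.Lin.H26
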