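import Pool.Agent.Lib.MP_5fcc10_co_lin_h26.DP1a

/-! Weights of double paths: counting. -/

set_option linter.unusedSectionVars false

namespace Pool.Agent.SK.Lin.H26

open Finset
open scoped symmDiff

variable {n p : ℕ}

lemma seg_snoc {l : ℕ} (b : Fin l → Fin n) (e : Fin n) (k : ℕ) (hk : k ≤ l) :
    (univ.filter (fun r : Fin (l+1) => r.val < k)).image (Fin.snoc b e : Fin (l+1) → Fin n)
      = (univ.filter (fun r : Fin l => r.val < k)).image b := by
  ext x
  rw [mem_seg, mem_seg]
  constructor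
  · rintro ⟨r, hr, hx⟩
    refine ⟨⟨r.val, lt_of_lt_of_le hr hk⟩, hr, ?_⟩
    rw [← hx]
    have : r = Fin.castSucc ⟨r.val, lt_of_lt_of_le hr hk⟩ := rfl
    conv_rhs => rw [this]
    rw [Fin.snoc_castSucc (α := fun _ => Fin n)]
  · rintro ⟨r, hr, hx⟩
    refine ⟨Fin.castSucc r, hr, ?_⟩
    rw [Fin.snoc_castSucc (α := fun _ => Fin n)]
    exact hx

lemma pe_snoc_castSucc (Z : Finset (Fin n)) {l : ℕ} (b : Fin l → Fin n) (e : Fin n) (r : Fin l) :
    pe Z (Fin.snoc b e : Fin (l+1) → Fin n) (Fin.castSucc r) = pe Z b r := by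
  unfold pe pv
  rw [Fin.snoc_castSucc (α := fun _ => Fin n)]
  have h : (univ.filter (fun s : Fin (l+1) => s.val < (Fin.castSucc r).val)).image
      (Fin.snoc b e : Fin (l+1) → Fin n) = (univ.filter (fun s : Fin l => s.val < r.val)).image b :=
    seg_snoc b e r.val r.isLt.le
  rw [h]

lemma pe_snoc_last (Z : Finset (Fin n)) {l : ℕ} (b : Fin l → Fin n) (e : Fin n) :
    pe Z (Fin.snoc b e : Fin (l+1) → Fin n) (Fin.last l) = ed (pv Z b l) e := by
  unfold pe pv
  rw [Fin.snoc_last (α := fun _ => Fin n), Fin.val_last, seg_snoc b e l le_rfl]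

/-- the weighted number of paths -/
lemma path_sum (q : ℝ) (hq : 0 ≤ q) (U : Finset (Ix n)) (v : Finset (Fin n)) (l : ℕ) :
    ∑ b : Fin l → Fin n, ∏ r, om q U (pe v b r) ≤ (U.card + n * q) ^ l := by
  induction l with
  | zero => simp
  | succ l ih =>
    rw [← (Fin.snocEquiv (fun _ : Fin (l+1) => Fin n)).sum_comp, Fintype.sum_prod_type, sum_comm]
    calc ∑ b : Fin l → Fin n, ∑ e : Fin n,
          ∏ r, om q U (pe v ((Fin.snocEquiv (fun _ : Fin (l+1) => Fin n)) (e, b)) r)
        = ∑ b : Fin l → Fin n, (∏ r, om q U (pe v b r)) * ∑ e, om q U (ed (pv v b l) e) := by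
          refine sum_congr rfl (fun b _ => ?_)
          rw [mul_sum]
          refine sum_congr rfl (fun e _ => ?_)
          rw [Fin.prod_univ_castSucc]
          have h1 : (Fin.snocEquiv (fun _ : Fin (l+1) => Fin n)) (e, b)
              = (Fin.snoc b e : Fin (l+1) → Fin n) := rfl
          rw [h1, pe_snoc_last]
          congr 1
          exact prod_congr rfl (fun r _ => by rw [pe_snoc_castSucc])
      _ ≤ ∑ b : Fin l → Fin n, (∏ r, om q U (pe v b r)) * (U.card + n * q) := by
          refine sum_le_sum (fun b _ => mul_le_mul_of_nonneg_left (sum_om_ed q hq U _) ?_)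
          exact prod_nonneg (fun r _ => om_nonneg hq U _)
      _ = (∑ b : Fin l → Fin n, ∏ r, om q U (pe v b r)) * (U.card + n * q) := by rw [sum_mul]
      _ ≤ (U.card + n * q) ^ l * (U.card + n * q) :=
          mul_le_mul_of_nonneg_right ih (by positivity)
      _ = _ := by rw [pow_succ]

lemma sum_prod_eq {d : ℕ} (F : Fin d → Fin n → ℝ) :
    ∑ a : Fin d → Fin n, ∏ r, F r (a r) = ∏ r, ∑ e, F r e := by
  rw [Finset.prod_univ_sum, Fintype.piFinset_univ]

/-- codes of paths -/
abbrev Pa (n m : ℕ) := Σ l : Fin (m + 1), (Fin l.val → Fin n)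

open Classical in
/-- the number of paths with given ends -/
lemma card_end (m : ℕ) (v w : Finset (Fin n)) :
    ∑ x : Pa n m, (if Function.Injective x.2 ∧ pv v x.2 x.1.val = w then (1:ℝ) else 0)
      ≤ ((m + 1 : ℕ) : ℝ) ^ (m + 1) := by
  rw [Fintype.sum_sigma]
  have h : ∀ l : Fin (m+1), ∑ b : Fin l.val → Fin n,
      (if Function.Injective b ∧ pv v b l.val = w then (1:ℝ) else 0) ≤ ((m + 1 : ℕ) : ℝ) ^ m := by
    intro l
    rw [sum_boole]
    by_cases hne : (univ.filter (fun b : Fin l.val → Fin n =>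
        Function.Injective b ∧ pv v b l.val = w)).Nonempty
    · obtain ⟨b, hb⟩ := hne
      have himg : ∀ b : Fin l.val → Fin n, pv v b l.val = w → univ.image b = v ∆ w := by
        intro b hb
        unfold pv at hb
        have h1 : (univ.filter (fun r : Fin l.val => r.val < l.val)) = univ := by
          ext r; simp
        rw [h1] at hb
        rw [← hb, symmDiff_symmDiff_cancel_left]
      have hcard : (v ∆ w).card = l.val := by
        rw [← himg b (mem_filter.1 hb).2.2, card_image_of_injective _ (mem_filter.1 hb).2.1,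
          card_univ, Fintype.card_fin]
      have hsub : univ.filter (fun b : Fin l.val → Fin n =>
          Function.Injective b ∧ pv v b l.val = w) ⊆ Fintype.piFinset (fun _ => v ∆ w) := by
        intro b hb
        rw [Fintype.mem_piFinset]
        intro r
        rw [← himg b (mem_filter.1 hb).2.2]
        exact mem_image_of_mem _ (mem_univ _)
      have h2 := card_le_card hsub
      rw [Fintype.card_piFinset, prod_const, card_univ, Fintype.card_fin, hcard] at h2
      have h3 : l.val ^ l.val ≤ (m+1) ^ m := by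
        calc l.val ^ l.val ≤ (m+1) ^ l.val := Nat.pow_le_pow_left (by omega) _
          _ ≤ (m+1) ^ m := Nat.pow_le_pow_right (by omega) (by omega)
      exact_mod_cast h2.trans h3
    · rw [not_nonempty_iff_eq_empty] at hne
      rw [hne, card_empty, Nat.cast_zero]
      positivity
  calc _ ≤ ∑ l : Fin (m+1), ((m + 1 : ℕ) : ℝ) ^ m := sum_le_sum (fun l _ => h l)
    _ = _ := by
        rw [sum_const, card_univ, Fintype.card_fin, nsmul_eq_mul, pow_succ, mul_comm]

/-- an edge at a given position of a path determines the start of the path up to two choices -/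
lemma pe_eq_imp {w : Finset (Fin n)} {d : ℕ} {c : Fin d → Fin n} {s : Fin d} {y : Ix n}
    (h : pe w c s = y) :
    w = y.1 ∆ (univ.filter (fun r : Fin d => r.val < s.val)).image c ∨
    w = (insert (c s) y.1) ∆ (univ.filter (fun r : Fin d => r.val < s.val)).image c := by
  have h1 : (pv w c s.val).erase (c s) = y.1 := congrArg Prod.fst h
  by_cases hc : c s ∈ pv w c s.val
  · right
    rw [← h1, insert_erase hc]
    unfold pv
    rw [symmDiff_symmDiff_cancel_right]
  · left
    rw [← h1, erase_eq_of_notMem hc]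
    unfold pv
    rw [symmDiff_symmDiff_cancel_right]

open Classical in
lemma card_pos_eq (m : ℕ) (v : Finset (Fin n)) {d : ℕ} (c : Fin d → Fin n) (s : Fin d) (y : Ix n) :
    ∑ x : Pa n m, (if Function.Injective x.2 ∧ pe (pv v x.2 x.1.val) c s = y then (1:ℝ) else 0)
      ≤ 2 * ((m + 1 : ℕ) : ℝ) ^ (m + 1) := by
  set w1 := y.1 ∆ (univ.filter (fun r : Fin d => r.val < s.val)).image c with hw1
  set w2 := (insert (c s) y.1) ∆ (univ.filter (fun r : Fin d => r.val < s.val)).image c with hw2
  have h1 := card_end m v w1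
  have h2 := card_end m v w2
  have h3 : ∑ x : Pa n m, (if Function.Injective x.2 ∧ pe (pv v x.2 x.1.val) c s = y then (1:ℝ)
      else 0) ≤ ∑ x : Pa n m, ((if Function.Injective x.2 ∧ pv v x.2 x.1.val = w1 then (1:ℝ) else 0)
        + (if Function.Injective x.2 ∧ pv v x.2 x.1.val = w2 then (1:ℝ) else 0)) := by
    refine sum_le_sum (fun x _ => ?_)
    by_cases h : Function.Injective x.2 ∧ pe (pv v x.2 x.1.val) c s = y
    · rw [if_pos h]
      rcases pe_eq_imp h.2 with h4 | h4
      · rw [if_pos ⟨h.1, h4⟩]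
        split_ifs <;> norm_num
      · rw [if_pos (⟨h.1, h4⟩ : Function.Injective x.2 ∧ pv v x.2 x.1.val = w2)]
        split_ifs <;> norm_num
    · rw [if_neg h]
      split_ifs <;> norm_num
  rw [sum_add_distrib] at h3
  linarith

lemma card_pes_inter_le (w : Finset (Fin n)) {d : ℕ} (c : Fin d → Fin n) (U : Finset (Ix n)) :
    ((pes w c ∩ U).card : ℝ) ≤ ∑ s : Fin d, ∑ y ∈ U, (if pe w c s = y then (1:ℝ) else 0) := by
  have h1 : pes w c ∩ U ⊆ (univ.filter (fun s : Fin d => pe w c s ∈ U)).image (pe w c) := by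
    intro y hy
    rw [mem_inter, mem_pes] at hy
    obtain ⟨⟨r, hr⟩, hU⟩ := hy
    rw [mem_image]
    exact ⟨r, mem_filter.2 ⟨mem_univ _, by rw [hr]; exact hU⟩, hr⟩
  have h2 : (pes w c ∩ U).card ≤ (univ.filter (fun s : Fin d => pe w c s ∈ U)).card :=
    (card_le_card h1).trans card_image_le
  have h3 : ∑ s : Fin d, ∑ y ∈ U, (if pe w c s = y then (1:ℝ) else 0)
      = ∑ s : Fin d, (if pe w c s ∈ U then (1:ℝ) else 0) := by
    refine sum_congr rfl (fun s _ => ?_)
    rw [sum_ite_eq]
  rw [h3, sum_boole]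
  exact_mod_cast h2

open Classical in
lemma sum_meet (m : ℕ) (v : Finset (Fin n)) {d : ℕ} (c : Fin d → Fin n) (U : Finset (Ix n)) :
    ∑ x : Pa n m, (if Function.Injective x.2 then ((pes (pv v x.2 x.1.val) c ∩ U).card : ℝ) else 0)
      ≤ d * U.card * (2 * ((m + 1 : ℕ) : ℝ) ^ (m + 1)) := by
  calc ∑ x : Pa n m,
        (if Function.Injective x.2 then ((pes (pv v x.2 x.1.val) c ∩ U).card : ℝ) else 0)
      ≤ ∑ x : Pa n m, ∑ s : Fin d, ∑ y ∈ U,
        (if Function.Injective x.2 ∧ pe (pv v x.2 x.1.val) c s = y then (1:ℝ) else 0) := by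
        refine sum_le_sum (fun x _ => ?_)
        by_cases h : Function.Injective x.2
        · rw [if_pos h]
          refine (card_pes_inter_le _ c U).trans (le_of_eq ?_)
          refine sum_congr rfl (fun s _ => sum_congr rfl (fun y _ => ?_))
          by_cases h1 : pe (pv v x.2 x.1.val) c s = y
          · rw [if_pos h1, if_pos ⟨h, h1⟩]
          · rw [if_neg h1, if_neg (fun h2 => h1 h2.2)]
        · rw [if_neg h]
          exact sum_nonneg (fun s _ => sum_nonneg (fun y _ => by split_ifs <;> norm_num))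
    _ = ∑ s : Fin d, ∑ y ∈ U, ∑ x : Pa n m,
        (if Function.Injective x.2 ∧ pe (pv v x.2 x.1.val) c s = y then (1:ℝ) else 0) := by
        rw [sum_comm]
        exact sum_congr rfl (fun s _ => sum_comm)
    _ ≤ ∑ s : Fin d, ∑ y ∈ U, (2 * ((m + 1 : ℕ) : ℝ) ^ (m + 1)) :=
        sum_le_sum (fun s _ => sum_le_sum (fun y _ => card_pos_eq m v c s y))
    _ = _ := by
        rw [sum_const, sum_const, card_univ, Fintype.card_fin, nsmul_eq_mul, nsmul_eq_mul]
        ring

/-- sum over one special position -/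
noncomputable def G1 (q : ℝ) (U : Finset (Ix n)) {d : ℕ} (a : Fin d → Fin n) : ℝ :=
  ∑ r0, ∏ r, (if r = r0 then fw q U (a r) else hw q U (a r))

lemma G1_nonneg {q : ℝ} (hq : 0 ≤ q) (U : Finset (Ix n)) {d : ℕ} (a : Fin d → Fin n) :
    0 ≤ G1 q U a := by
  refine sum_nonneg (fun r0 _ => prod_nonneg (fun r _ => ?_))
  split_ifs
  · exact fw_nonneg hq U _
  · exact hw_nonneg U _

lemma sum_G1 {q : ℝ} (hq : 0 ≤ q) (U : Finset (Ix n)) (d : ℕ) (A B : ℝ)
    (hA : (U.card : ℝ) + n * q ≤ A) (hB : (U.card : ℝ) + n * q ^ 2 ≤ B) (hB1 : 1 ≤ B) :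
    ∑ a : Fin d → Fin n, G1 q U a ≤ d * (A * B ^ d) := by
  have hA0 : 0 ≤ A := le_trans (by positivity) hA
  unfold G1
  rw [sum_comm]
  have h : ∀ r0 : Fin d, ∑ a : Fin d → Fin n,
      ∏ r, (if r = r0 then fw q U (a r) else hw q U (a r)) ≤ A * B ^ d := by
    intro r0
    have h1 := sum_prod_eq (fun (r : Fin d) (e : Fin n) =>
      if r = r0 then fw q U e else hw q U e)
    rw [h1]
    calc ∏ r : Fin d, ∑ e : Fin n, (if r = r0 then fw q U e else hw q U e)
        ≤ ∏ r : Fin d, ((if r = r0 then A else 1) * B) := by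
          refine prod_le_prod (fun r _ => sum_nonneg (fun e _ => ?_)) (fun r _ => ?_)
          · split_ifs
            · exact fw_nonneg hq U _
            · exact hw_nonneg U _
          · by_cases hr : r = r0
            · simp only [if_pos hr]
              refine ((sum_fw q U).trans hA).trans ?_
              nlinarith
            · simp only [if_neg hr, one_mul]
              exact (sum_hw q U).trans hB
      _ = A * B ^ d := by
          rw [prod_mul_distrib, prod_ite_eq', if_pos (mem_univ _), prod_const, card_univ,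
            Fintype.card_fin]
  refine (sum_le_sum (fun r0 _ => h r0)).trans (le_of_eq ?_)
  rw [sum_const, card_univ, Fintype.card_fin, nsmul_eq_mul]

lemma sum_prod_fw {q : ℝ} (hq : 0 ≤ q) (U : Finset (Ix n)) (d : ℕ) (A : ℝ)
    (hA : (U.card : ℝ) + n * q ≤ A) (hd : 3 ≤ d) (hA1 : q * A ≤ 1) :
    ∑ a : Fin d → Fin n, ∏ r, (q * fw q U (a r)) ≤ (q * A) ^ 3 := by
  have h1 := sum_prod_eq (fun (_ : Fin d) (e : Fin n) => q * fw q U e)
  rw [h1, prod_const, card_univ, Fintype.card_fin, ← mul_sum]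
  have h2 : q * ∑ e, fw q U e ≤ q * A := mul_le_mul_of_nonneg_left ((sum_fw q U).trans hA) hq
  have h3 : 0 ≤ q * ∑ e, fw q U e := mul_nonneg hq (sum_nonneg (fun e _ => fw_nonneg hq U e))
  calc (q * ∑ e, fw q U e) ^ d ≤ (q * A) ^ d := pow_le_pow_left₀ h3 h2 d
    _ ≤ (q * A) ^ 3 := pow_le_pow_of_le_one (h3.trans h2) hA1 hd

end Pool.Agent.SK.Lin.H26
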